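import Mathlib

/-!
# Proper factors of `a + i` in `ℤ[i]`, normalised; sums over short logarithmic ranges
-/

set_option autoImplicit false

namespace Pool.Agent.H578.Sec

open Finset

/-- `a + i = (u + i v) (r + i s)` in `ℤ[i]` with both factors non-units, `u > 0`, `|v| ≤ u`, slope `v / u`
in `[α, β]` and norm `u ^ 2 + v ^ 2` in `[A, B]`. -/
def HasFactor (a : ℕ) (α β A B : ℝ) : Prop :=
  ∃ u v r s : ℤ, u * r - v * s = a ∧ u * s + v * r = 1 ∧ 1 < u ^ 2 + v ^ 2 ∧ 1 < r ^ 2 + s ^ 2 ∧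
    0 < u ∧ |v| ≤ u ∧ α * (u : ℝ) ≤ (v : ℝ) ∧ (v : ℝ) ≤ β * (u : ℝ) ∧
    A ≤ (u : ℝ) ^ 2 + (v : ℝ) ^ 2 ∧ (u : ℝ) ^ 2 + (v : ℝ) ^ 2 ≤ B

theorem rough_norm {a : ℕ} {z : ℝ} (hrough : ∀ p : ℕ, p.Prime → p ∣ a ^ 2 + 1 → z ≤ p)
    {N1 N2 : ℤ} (h : N1 * N2 = (a : ℤ) ^ 2 + 1) (h1 : 1 < N1) : z ≤ N1 := by
  obtain ⟨p, hp, hpd⟩ := Nat.exists_prime_and_dvd (n := N1.natAbs) (by omega)
  have h2 : (p : ℤ) ∣ N1 := Int.natCast_dvd.2 hpd
  have h3 : (p : ℤ) ∣ ((a ^ 2 + 1 : ℕ) : ℤ) := by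
    push_cast
    rw [← h]
    exact h2.mul_right _
  have h4 : p ∣ a ^ 2 + 1 := Int.natCast_dvd_natCast.1 h3
  have h5 : (p : ℤ) ≤ N1 := Int.le_of_dvd (by omega) h2
  have h6 : (p : ℝ) ≤ (N1 : ℝ) := by exact_mod_cast h5
  exact (hrough p hp h4).trans h6

/-- the smaller of two complementary norms is at most `a` -/
theorem small_norm {a N1 N2 : ℤ} (ha : 1 ≤ a) (h1 : 0 ≤ N1) (h12 : N1 ≤ N2)
    (h : N1 * N2 = a ^ 2 + 1) : N1 ≤ a := by
  by_contra hc
  push Not at hc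
  have h2 : (a + 1) * (a + 1) ≤ N1 * N2 := mul_le_mul (by omega) (by omega) (by omega) h1
  nlinarith

/-- reduction of a factorisation to a factor with small real part -/
theorem reduce (a : ℕ) (ha : 1 ≤ a) (z α β A B : ℝ)
    (hrough : ∀ p : ℕ, p.Prime → p ∣ a ^ 2 + 1 → z ≤ p) (h : HasFactor a α β A B) :
    ∃ (x : ℕ) (y r s : ℤ), 1 ≤ x ∧ x ^ 2 ≤ a ∧ z ≤ 5 * (x : ℝ) ^ 2 ∧ (x : ℤ) * r - y * s = a ∧
      (x : ℤ) * s + y * r = 1 ∧ (x : ℤ) * |r| ≤ a ∧
      ((α * x - 1 ≤ y ∧ (y : ℝ) ≤ β * x + 1 ∧ A ≤ 5 * (x : ℝ) ^ 2 ∧ (x : ℝ) ^ 2 ≤ B) ∨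
       (-β * x - 1 ≤ y ∧ (y : ℝ) ≤ -α * x + 1 ∧ (a : ℝ) ^ 2 ≤ B * (5 * (x : ℝ) ^ 2) ∧
          A * (x : ℝ) ^ 2 ≤ 2 * (a : ℝ) ^ 2)) := by
  obtain ⟨u, v, r, s, e1, e2, n1, n2, hu, hvu, hα, hβ, hA, hB⟩ := h
  have haz : (1 : ℤ) ≤ a := by exact_mod_cast ha
  have hN : (u ^ 2 + v ^ 2) * (r ^ 2 + s ^ 2) = (a : ℤ) ^ 2 + 1 := by
    linear_combination (u * r - v * s + a) * e1 + (u * s + v * r + 1) * e2
  have hz1 := rough_norm hrough hN n1
  have hz2 := rough_norm hrough (by rw [mul_comm]; exact hN) n2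
  push_cast at hz1 hz2
  have hvs := abs_le.1 hvu
  have hv2 : v ^ 2 ≤ u ^ 2 := by
    rw [← sq_abs v]
    exact pow_le_pow_left₀ (abs_nonneg _) hvu 2
  have hur : (1 : ℝ) ≤ u := by exact_mod_cast hu
  have har : (1 : ℝ) ≤ a := by exact_mod_cast ha
  have hv2r : (v : ℝ) ^ 2 ≤ (u : ℝ) ^ 2 := by exact_mod_cast hv2
  have hprod : u * |r| ≤ a := by
    have h1 : (u * |r|) ^ 2 ≤ (a : ℤ) ^ 2 + 1 := by
      rw [← hN, mul_pow, sq_abs]
      nlinarith [mul_nonneg (sq_nonneg u) (sq_nonneg s), mul_nonneg (sq_nonneg v) (sq_nonneg r),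
        mul_nonneg (sq_nonneg v) (sq_nonneg s)]
    by_contra hc
    push Not at hc
    have h2 : ((a : ℤ) + 1) * (a + 1) ≤ (u * |r|) * (u * |r|) :=
      mul_le_mul (by omega) (by omega) (by omega) (by positivity)
    nlinarith
  rcases le_or_gt (u ^ 2 + v ^ 2) (r ^ 2 + s ^ 2) with h12 | h12
  · have hsm := small_norm haz (by positivity) h12 hN
    obtain ⟨x, rfl⟩ := Int.eq_ofNat_of_zero_le hu.le
    refine ⟨x, v, r, s, by omega, ?_, ?_, e1, e2, hprod, Or.inl ⟨?_, ?_, ?_, ?_⟩⟩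
    · have : (x : ℤ) ^ 2 ≤ a := by nlinarith [sq_nonneg v]
      exact_mod_cast this
    · push_cast at hz1 hv2r
      linarith [sq_nonneg (x : ℝ)]
    · push_cast at hα
      linarith
    · push_cast at hβ
      linarith
    · push_cast at hA hv2r
      linarith [sq_nonneg (x : ℝ)]
    · push_cast at hB
      linarith [sq_nonneg (v : ℝ)]
  · have hN' : (r ^ 2 + s ^ 2) * (u ^ 2 + v ^ 2) = (a : ℤ) ^ 2 + 1 := by rw [mul_comm]; exact hN
    have hsm := small_norm haz (by positivity) h12.le hN'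
    have hr0 : r ≠ 0 := by
      intro h
      rw [h] at e2 n2
      have h2 : u * s = 1 := by linarith
      have h3' : u = 1 := Int.eq_one_of_mul_eq_one_right hu.le h2
      have h3 : s = 1 := by
        rw [h3'] at h2
        linarith
      rw [h3] at n2
      norm_num at n2
    -- the sign of `r`
    obtain ⟨e, he, hr⟩ : ∃ e : ℤ, e * e = 1 ∧ 0 < e * r := by
      rcases lt_or_gt_of_ne hr0 with h | h
      · exact ⟨-1, by norm_num, by omega⟩
      · exact ⟨1, by norm_num, by omega⟩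
    obtain ⟨x, hx⟩ := Int.eq_ofNat_of_zero_le hr.le
    have hx1 : 1 ≤ x := by omega
    have hxabs : (x : ℤ) = |r| := by
      have h1 : |e| = 1 := by
        rcases Int.isUnit_iff.1 (IsUnit.of_mul_eq_one e he) with h | h <;> rw [h] <;> norm_num
      rw [← hx, ← abs_of_pos hr, abs_mul, h1, one_mul]
    have hx0 : (0 : ℝ) < x := by exact_mod_cast hx1
    have hxr : (x : ℝ) = e * r := by exact_mod_cast hx.symm
    have her : (e : ℝ) * e = 1 := by exact_mod_cast he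
    have e2r : (u : ℝ) * s + v * r = 1 := by exact_mod_cast e2
    have hx2 : (x : ℝ) ^ 2 = (r : ℝ) ^ 2 := by
      rw [hxr]
      linear_combination (r : ℝ) ^ 2 * her
    -- `u (e s) = e - v x`
    have hus : (u : ℝ) * (e * s) = e - v * x := by
      rw [hxr]
      linear_combination (e : ℝ) * e2r
    have hey : |(e : ℝ)| ≤ u := by
      have h1 : |(e : ℝ)| = 1 := by
        have : |(e : ℝ)| * |(e : ℝ)| = 1 := by rw [← abs_mul, her, abs_one]
        nlinarith [abs_nonneg (e : ℝ)]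
      rw [h1]
      exact hur
    have hes := abs_le.1 hey
    have hy1 : -β * x - 1 ≤ ((e * s : ℤ) : ℝ) := by
      push_cast
      have h1 : (u : ℝ) * (-β * x - 1) ≤ u * (e * s) := by
        rw [hus]
        have := mul_le_mul_of_nonneg_right hβ hx0.le
        linarith [hes.1]
      exact le_of_mul_le_mul_left h1 (by linarith)
    have hy2 : ((e * s : ℤ) : ℝ) ≤ -α * x + 1 := by
      push_cast
      have h1 : (u : ℝ) * (e * s) ≤ u * (-α * x + 1) := by
        rw [hus]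
        have := mul_le_mul_of_nonneg_right hα hx0.le
        linarith [hes.2]
      exact le_of_mul_le_mul_left h1 (by linarith)
    have hs2 : s ^ 2 ≤ 4 * r ^ 2 := by
      have h1 : u * |s| ≤ u * (2 * |r|) := by
        have h2 : u * |s| = |1 - v * r| := by
          have h9 : |u * s| = u * |s| := by rw [abs_mul, abs_of_pos hu]
          rw [← h9]
          congr 1
          linarith
        rw [h2]
        have h3 : |1 - v * r| ≤ |(1 : ℤ)| + |v * r| := abs_sub _ _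
        rw [abs_mul, abs_one] at h3
        have h4 : |v| * |r| ≤ u * |r| := mul_le_mul_of_nonneg_right hvu (abs_nonneg _)
        have h5 : 1 ≤ |r| := Int.one_le_abs hr0
        have h6 : 1 * 1 ≤ u * |r| := mul_le_mul (by omega) h5 (by norm_num) hu.le
        linarith
      have h2 : |s| ≤ 2 * |r| := le_of_mul_le_mul_left h1 hu
      have h3 := pow_le_pow_left₀ (abs_nonneg _) h2 2
      rw [mul_pow, sq_abs, sq_abs] at h3
      linarith
    have hs2r : (s : ℝ) ^ 2 ≤ 4 * (r : ℝ) ^ 2 := by exact_mod_cast hs2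
    have hNr : ((u : ℝ) ^ 2 + v ^ 2) * ((r : ℝ) ^ 2 + s ^ 2) = (a : ℝ) ^ 2 + 1 := by
      exact_mod_cast hN
    refine ⟨x, e * s, e * u, e * v, hx1, ?_, ?_, ?_, ?_, ?_, Or.inr ⟨hy1, hy2, ?_, ?_⟩⟩
    · have : (x : ℤ) ^ 2 ≤ a := by
        rw [hxabs, sq_abs]
        nlinarith [sq_nonneg s]
      exact_mod_cast this
    · rw [hx2]
      linarith
    · rw [show (x : ℤ) = e * r from hx.symm]
      linear_combination e1 + (u * r - v * s) * he
    · rw [show (x : ℤ) = e * r from hx.symm]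
      linear_combination e2 + (u * s + v * r) * he
    · have h1 : |e * u| = u := by
        rw [abs_mul, abs_of_pos hu]
        rcases Int.isUnit_iff.1 (IsUnit.of_mul_eq_one e he) with h | h <;> rw [h] <;> norm_num
      rw [h1, hxabs]
      linarith
    · rw [hx2]
      have h1 : (r : ℝ) ^ 2 + s ^ 2 ≤ 5 * (r : ℝ) ^ 2 := by linarith
      have h2 : (0 : ℝ) ≤ (r : ℝ) ^ 2 + s ^ 2 := by positivity
      have h3 : (0 : ℝ) ≤ (u : ℝ) ^ 2 + v ^ 2 := by positivity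
      calc (a : ℝ) ^ 2 ≤ (a : ℝ) ^ 2 + 1 := by linarith
        _ = ((u : ℝ) ^ 2 + v ^ 2) * ((r : ℝ) ^ 2 + s ^ 2) := hNr.symm
        _ ≤ B * (5 * (r : ℝ) ^ 2) := mul_le_mul hB h1 h2 (h3.trans hB)
    · rw [hx2]
      have h2 : (0 : ℝ) ≤ (s : ℝ) ^ 2 := by positivity
      have h4 : (1 : ℝ) ≤ (a : ℝ) ^ 2 := by nlinarith
      calc A * (r : ℝ) ^ 2 ≤ ((u : ℝ) ^ 2 + v ^ 2) * (r : ℝ) ^ 2 := by gcongr
        _ ≤ ((u : ℝ) ^ 2 + v ^ 2) * ((r : ℝ) ^ 2 + s ^ 2) := by gcongr; linarith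
        _ = (a : ℝ) ^ 2 + 1 := hNr
        _ ≤ 2 * (a : ℝ) ^ 2 := by linarith

/-- partial summation over a range -/
theorem sum_div_range (f : ℕ → ℝ) (C : ℝ) (hC : 0 ≤ C) (h0 : ∀ n, 0 ≤ f n)
    (h : ∀ T : ℕ, ∑ x ∈ Icc 1 T, f x ≤ C * T) (A B : ℕ) (hA : 1 ≤ A) (hAB : A ≤ B) :
    ∑ x ∈ Icc A B, f x / x ≤ C * (1 + Real.log ((B : ℝ) / A)) := by
  have hA0 : (0 : ℝ) < A := by exact_mod_cast hA
  have key : ∀ B : ℕ, A ≤ B → ∑ x ∈ Icc A B, f x / x + (∑ x ∈ Ico 1 A, f x) / A =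
      (∑ x ∈ Icc 1 B, f x) / B + ∑ n ∈ Ico A B, (∑ x ∈ Icc 1 n, f x) / ((n : ℝ) * (n + 1)) := by
    intro B hB
    induction B, hB using Nat.le_induction with
    | base =>
      have h1 : Icc 1 A = insert A (Ico 1 A) := by
        ext n
        rw [mem_insert, mem_Icc, mem_Ico]
        omega
      rw [Icc_self, sum_singleton, Ico_self, sum_empty, add_zero, h1,
        sum_insert (by rw [mem_Ico]; omega)]
      ring
    | succ n hn ih =>
      rw [Finset.sum_Icc_succ_top (by omega), Finset.sum_Icc_succ_top (by omega),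
        Finset.sum_Ico_succ_top hn, add_right_comm, ih]
      have hn0 : (0 : ℝ) < n := by
        have : 1 ≤ n := by omega
        exact_mod_cast this
      push_cast
      field_simp
      ring
  have hB1 : 1 ≤ B := by omega
  have hB0 : (0 : ℝ) < B := by exact_mod_cast hB1
  have h1 : (∑ x ∈ Icc 1 B, f x) / B ≤ C := by
    rw [div_le_iff₀ hB0]
    exact h B
  have h2 : ∑ n ∈ Ico A B, (∑ x ∈ Icc 1 n, f x) / ((n : ℝ) * (n + 1)) ≤
      ∑ n ∈ Ico A B, C * (1 / ((n : ℝ) + 1)) := by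
    apply sum_le_sum
    intro n hn
    rw [mem_Ico] at hn
    have hn0 : (0 : ℝ) < n := by
      have : 1 ≤ n := by omega
      exact_mod_cast this
    rw [div_le_iff₀ (by positivity)]
    refine (h n).trans (le_of_eq ?_)
    field_simp
  have h3 : ∀ B : ℕ, A ≤ B → ∑ n ∈ Ico A B, (1 / ((n : ℝ) + 1)) ≤ Real.log B - Real.log A := by
    intro B hB
    induction B, hB using Nat.le_induction with
    | base => simp
    | succ n hn ih =>
      rw [Finset.sum_Ico_succ_top hn]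
      have hn0 : (0 : ℝ) < n := by
        have : 1 ≤ n := by omega
        exact_mod_cast this
      have h4 := Real.one_sub_inv_le_log_of_pos (x := ((n : ℝ) + 1) / n) (by positivity)
      rw [Real.log_div (by positivity) (by positivity), inv_div] at h4
      have h5 : 1 - (n : ℝ) / (n + 1) = 1 / (n + 1) := by
        field_simp
        ring
      rw [h5] at h4
      push_cast
      linarith
  have h4 := mul_le_mul_of_nonneg_left (h3 B hAB) hC
  rw [← mul_sum] at h2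
  rw [Real.log_div (by positivity) (by positivity)]
  have h5 : (0 : ℝ) ≤ (∑ x ∈ Ico 1 A, f x) / A := by
    apply div_nonneg (sum_nonneg fun n _ => h0 n) hA0.le
  have h6 := key B hAB
  linarith

/-- sum over a real range -/
theorem sum_div_real (f : ℕ → ℝ) (C : ℝ) (hC : 0 ≤ C) (h0 : ∀ n, 0 ≤ f n)
    (h : ∀ T : ℕ, ∑ x ∈ Icc 1 T, f x ≤ C * T) (T : ℕ) (A B : ℝ) (hA : 0 < A) (hAB : A ≤ 5 * B) :
    ∑ x ∈ (Icc 1 T).filter (fun x : ℕ => A ≤ 5 * (x : ℝ) ^ 2 ∧ (x : ℝ) ^ 2 ≤ B), f x / x ≤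
      C * (1 + Real.log (5 * B / A)) := by
  set I := (Icc 1 T).filter (fun x : ℕ => A ≤ 5 * (x : ℝ) ^ 2 ∧ (x : ℝ) ^ 2 ≤ B) with hI
  have hlog : 0 ≤ Real.log (5 * B / A) := Real.log_nonneg (by rw [le_div_iff₀ hA]; linarith)
  rcases I.eq_empty_or_nonempty with he | hne
  · rw [he, sum_empty]
    positivity
  · have hmin := I.min'_mem hne
    have hmax := I.max'_mem hne
    set m := I.min' hne with hm
    set M := I.max' hne with hM
    have hmM : m ≤ M := I.min'_le _ hmax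
    rw [hI, mem_filter, mem_Icc] at hmin hmax
    have hm1 : 1 ≤ m := hmin.1.1
    have hm0 : (0 : ℝ) < m := by exact_mod_cast hm1
    have hM0 : (0 : ℝ) < M := by exact_mod_cast (by omega : 1 ≤ M)
    have hmMr : (m : ℝ) ≤ M := by exact_mod_cast hmM
    have hsub : I ⊆ Icc m M := by
      intro x hx
      rw [mem_Icc]
      exact ⟨I.min'_le _ hx, I.le_max' _ hx⟩
    have h1 := sum_div_range f C hC h0 h m M hm1 hmM
    have h2 : Real.log ((M : ℝ) / m) ≤ Real.log (5 * B / A) := by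
      have h3 : 0 ≤ Real.log ((M : ℝ) / m) := Real.log_nonneg (by rw [le_div_iff₀ hm0]; linarith)
      have h4 : 2 * Real.log ((M : ℝ) / m) = Real.log (((M : ℝ) / m) ^ 2) := by
        rw [Real.log_pow]
        norm_num
      have h5 : Real.log (((M : ℝ) / m) ^ 2) ≤ Real.log (5 * B / A) := by
        apply Real.log_le_log (by positivity)
        rw [div_pow, div_le_div_iff₀ (by positivity) hA]
        have h6 : (M : ℝ) ^ 2 * A ≤ B * (5 * (m : ℝ) ^ 2) :=
          mul_le_mul hmax.2.2 hmin.2.1 hA.le (by nlinarith [hmax.2.2, sq_nonneg (M : ℝ)])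
        linarith
      linarith
    calc ∑ x ∈ I, f x / x ≤ ∑ x ∈ Icc m M, f x / x :=
          sum_le_sum_of_subset_of_nonneg hsub fun x _ _ => div_nonneg (h0 x) (Nat.cast_nonneg _)
      _ ≤ C * (1 + Real.log ((M : ℝ) / m)) := h1
      _ ≤ _ := by gcongr

end Pool.Agent.H578.Sec
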