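import Pool.Agent.H578.Sec.Short

/-!
# Almost primes `a ^ 2 + 1` with three prime factors, all of them at least `X ^ ζ`, `ζ < 1 / 2`
-/

set_option autoImplicit false

namespace Pool.Agent.H578.Sec

open Finset Filter Topology
open scoped Classical

/-- the weights: `ζ = 1 / 2 - ε`, `υ = 1 / 2 + ε`, level `1 - ε / 2` -/
theorem cond_half (ε : ℝ) (h0 : 0 < ε) (h1 : ε ≤ 1 / 10) :
    ∫ x in (1 / 2 - ε)..(1 / 2 + ε), ((1 / 2 + ε) / (4 * ε - ε ^ 2) -
      (1 / 2 + ε) / (4 * ε - ε ^ 2) / (1 / 2 + ε) * x) / (1 - ε / 2 - x) / x <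
      Real.log ((1 - ε / 2) / (1 / 2 - ε) - 1) / (1 - ε / 2) := by
  have hε2 : ε ^ 2 ≤ ε / 10 := by nlinarith
  have hε2p : 0 < ε ^ 2 := by positivity
  have hd : 0 < 4 * ε - ε ^ 2 := by nlinarith
  have hυ : (0 : ℝ) < 1 / 2 + ε := by linarith
  set κ : ℝ := 1 / (4 * ε - ε ^ 2) with hκ
  have hκ0 : 0 < κ := by positivity
  have hfun : ∀ x : ℝ, ((1 / 2 + ε) / (4 * ε - ε ^ 2) -
      (1 / 2 + ε) / (4 * ε - ε ^ 2) / (1 / 2 + ε) * x) / (1 - ε / 2 - x) / x =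
      κ * (1 / 2 + ε - x) / (1 - ε / 2 - x) / x := by
    intro x
    congr 2
    rw [hκ]
    field_simp
  simp only [hfun]
  have hle : (1 / 2 - ε : ℝ) ≤ 1 / 2 + ε := by linarith
  have hcont : ContinuousOn (fun x : ℝ => κ * (1 / 2 + ε - x) / (1 - ε / 2 - x) / x)
      (Set.uIcc (1 / 2 - ε) (1 / 2 + ε)) := by
    rw [Set.uIcc_of_le hle]
    apply ContinuousOn.div
    · apply ContinuousOn.div
      · fun_prop
      · fun_prop
      · intro x hx
        have : x ≤ 1 / 2 + ε := hx.2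
        intro h
        linarith
    · fun_prop
    · intro x hx
      have : 1 / 2 - ε ≤ x := hx.1
      intro h
      linarith
  have hint : IntervalIntegrable (fun x : ℝ => κ * (1 / 2 + ε - x) / (1 - ε / 2 - x) / x)
      MeasureTheory.volume (1 / 2 - ε) (1 / 2 + ε) := hcont.intervalIntegrable
  have hint2 : IntervalIntegrable (fun x : ℝ => 100 / 21 * κ * (1 / 2 + ε - x))
      MeasureTheory.volume (1 / 2 - ε) (1 / 2 + ε) :=
    Continuous.intervalIntegrable (by fun_prop) _ _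
  have hmono : ∫ x in (1 / 2 - ε)..(1 / 2 + ε), κ * (1 / 2 + ε - x) / (1 - ε / 2 - x) / x ≤
      ∫ x in (1 / 2 - ε)..(1 / 2 + ε), 100 / 21 * κ * (1 / 2 + ε - x) := by
    apply intervalIntegral.integral_mono_on hle hint hint2
    intro x hx
    have hx1 : 1 / 2 - ε ≤ x := hx.1
    have hx2 : x ≤ 1 / 2 + ε := hx.2
    have hx0 : 0 < x := by linarith
    have hτx : 0 < 1 - ε / 2 - x := by linarith
    rw [div_div, div_le_iff₀ (mul_pos hτx hx0)]
    have h2 : 21 / 100 ≤ (1 - ε / 2 - x) * x := by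
      -- concavity: the product is at least the minimum of the values at the end points
      have h3 : 0 ≤ (x - (1 / 2 - ε)) * ((1 / 2 + ε) - x) :=
        mul_nonneg (by linarith) (by linarith)
      nlinarith
    have h3 : 0 ≤ κ * (1 / 2 + ε - x) := mul_nonneg hκ0.le (by linarith)
    nlinarith
  have hval : ∫ x in (1 / 2 - ε)..(1 / 2 + ε), 100 / 21 * κ * (1 / 2 + ε - x) =
      200 / 21 * κ * ε ^ 2 := by
    rw [intervalIntegral.integral_const_mul, intervalIntegral.integral_sub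
      (by simp) (by simp), integral_id, intervalIntegral.integral_const]
    simp only [smul_eq_mul]
    ring
  have hJ : 200 / 21 * κ * ε ^ 2 < 27 / 10 * ε := by
    rw [hκ, mul_one_div, div_mul_eq_mul_div, div_lt_iff₀ hd]
    nlinarith
  have hζ : (0 : ℝ) < 1 / 2 - ε := by linarith
  have hlog : 27 / 10 * ε ≤ Real.log ((1 - ε / 2) / (1 / 2 - ε) - 1) := by
    have hy : 0 < (1 - ε / 2) / (1 / 2 - ε) - 1 := by
      rw [sub_pos, lt_div_iff₀ hζ]
      linarith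
    have h2 := Real.one_sub_inv_le_log_of_pos hy
    have h3 : (1 - ε / 2) / (1 / 2 - ε) - 1 = (1 / 2 + ε / 2) / (1 / 2 - ε) := by
      rw [eq_div_iff hζ.ne', sub_mul, div_mul_cancel₀ _ hζ.ne']
      ring
    have hn : 0 < 1 / 2 + ε / 2 := by linarith
    have h4 : 27 / 10 * ε ≤ 1 - ((1 - ε / 2) / (1 / 2 - ε) - 1)⁻¹ := by
      rw [h3, inv_div, le_sub_iff_add_le, ← le_sub_iff_add_le', div_le_iff₀ hn]
      nlinarith
    linarith
  have hτ : 0 < 1 - ε / 2 := by linarith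
  have hlog0 : 0 ≤ Real.log ((1 - ε / 2) / (1 / 2 - ε) - 1) := le_trans (by positivity) hlog
  have hfin : Real.log ((1 - ε / 2) / (1 / 2 - ε) - 1) ≤
      Real.log ((1 - ε / 2) / (1 / 2 - ε) - 1) / (1 - ε / 2) := by
    rw [le_div_iff₀ hτ]
    nlinarith
  linarith

theorem short_half (h ζ : ℝ) (hζ : 2 / 5 ≤ ζ) (hζh : ζ + 1 / 2 < h) (h1 : h ≤ 1) :
    ∃ δ : ℝ, 0 < δ ∧ ∀ ε : ℝ, 0 < ε → ∃ c : ℝ, 0 < c ∧ ∀ (k : ℕ) (α β s t : Fin k → ℝ),
      (∀ i, -1 ≤ α i ∧ α i < β i ∧ β i ≤ 1 ∧ s i < t i) →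
      ∑ i, (β i - α i) * (t i - s i) ≤ c → ∀ᶠ X : ℕ in atTop,
        (((Icc 1 X).filter (fun N : ℕ =>
          (((Ioc N (N + ⌊(X : ℝ) ^ h⌋₊)).filter (Good ζ k α β s t X)).card : ℝ) <
            δ * (X : ℝ) ^ h / Real.log X)).card : ℝ) ≤ ε * X := by
  obtain ⟨ε, hε1, hε2⟩ : ∃ ε : ℝ, 1 - h < ε ∧ ε < 1 / 2 - ζ :=
    exists_between (by linarith)
  have hε0 : 0 < ε := by linarith
  have hε10 : ε ≤ 1 / 10 := by linarith
  have hd : 0 < 4 * ε - ε ^ 2 := by nlinarith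
  have hυ : (0 : ℝ) < 1 / 2 + ε := by linarith
  obtain ⟨δ, hδ, X0, H⟩ := Pool.Agent.Y882.MG.finAll 1 (by
      rintro ⟨r, hr⟩
      nlinarith [mul_self_nonneg r]) 3 (1 - ε / 2) (1 / 2 - ε) (1 / 2 + ε)
    ((1 / 2 + ε) / (4 * ε - ε ^ 2)) (2 + ε ^ 2) (by linarith) (by linarith) (by linarith)
    (by linarith) (by linarith) (by linarith) (by linarith) (by positivity) (cond_half ε hε0 hε10)
    (by nlinarith) (by
      have h2 : 1 / ((1 / 2 + ε) / (4 * ε - ε ^ 2)) + (2 + ε ^ 2) / (1 / 2 + ε) = 4 := by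
        field_simp
        ring
      rw [h2]
      norm_num) h ((ε - (1 - h)) / 2) (by linarith) h1 (by linarith)
  exact short_gen h ζ (1 / 2 - ε) _ δ h1 (by linarith) (by linarith) (by linarith) hδ
    (eventually_atTop.2 ⟨X0, fun X hX => H X hX⟩)

end Pool.Agent.H578.Sec
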