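import Pool.Agent.H578.Sec.Block2

/-!
# The proper factors of `a + i` for `a ^ 2 + 1` rough have a bounded density
-/

set_option autoImplicit false

namespace Pool.Agent.H578.Sec

open Finset Filter Topology
open scoped Classical

/-- all prime factors of `a ^ 2 + 1` are at least `z` -/
def Rough (z : ℝ) (a : ℕ) : Prop := ∀ p : ℕ, p.Prime → p ∣ a ^ 2 + 1 → z ≤ p

/-- the `a ≤ X` with `a ^ 2 + 1` free of prime factors below `X ^ w` for which `a + i` has a proper
factor with slope in `[α, β]` and norm in `[X ^ s, X ^ t]` -/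
noncomputable def BB (w α β s t : ℝ) (X : ℕ) : Finset ℕ :=
  (Icc 1 X).filter (fun a : ℕ => Rough ((X : ℝ) ^ w) a ∧
    HasFactor a α β ((X : ℝ) ^ s) ((X : ℝ) ^ t))

theorem bb_le (w : ℝ) (hw : 0 < w) : ∃ C : ℝ, 0 < C ∧ ∀ α β s t : ℝ, -1 ≤ α → α < β → β ≤ 1 →
    s < t → ∀ᶠ X : ℕ in atTop,
      ((BB w α β s t X).card : ℝ) ≤ C * ((β - α) * (t - s)) * X / Real.log X := by
  obtain ⟨C, hC, hcore⟩ := core w hw
  refine ⟨7 * C, by positivity, ?_⟩
  intro α β s t hα hαβ hβ hst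
  set η : ℝ := β - α with hη
  set τ : ℝ := t - s with hτ
  have hη0 : 0 < η := by linarith
  have hτ0 : 0 < τ := by linarith
  -- the exponent `ε`
  set ε : ℝ := min (τ / 4) (1 / 2) with hε
  have hε0 : 0 < ε := lt_min (by positivity) (by norm_num)
  have hε1 : ε ≤ τ / 4 := min_le_left _ _
  have hlog : Tendsto (fun X : ℕ => Real.log (X : ℝ)) atTop atTop :=
    Real.tendsto_log_atTop.comp tendsto_natCast_atTop_atTop
  have hsmall : ∀ᶠ X : ℕ in atTop, (X : ℝ) ^ (1 - ε) * Real.log X ≤ C * (η * τ) * X := by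
    have h1 := (isLittleO_log_rpow_atTop hε0).def (c := C * (η * τ)) (by positivity)
    have h2 := (tendsto_natCast_atTop_atTop (R := ℝ)).eventually h1
    filter_upwards [h2, eventually_ge_atTop 1] with X h3 h4
    have hX1 : (1 : ℝ) ≤ X := by exact_mod_cast h4
    have hX0 : (0 : ℝ) < X := by linarith
    rw [Real.norm_of_nonneg (Real.log_nonneg hX1), Real.norm_of_nonneg (by positivity)] at h3
    calc (X : ℝ) ^ (1 - ε) * Real.log X ≤ (X : ℝ) ^ (1 - ε) * (C * (η * τ) * (X : ℝ) ^ ε) := by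
          gcongr
      _ = C * (η * τ) * ((X : ℝ) ^ (1 - ε) * (X : ℝ) ^ ε) := by ring
      _ = C * (η * τ) * X := by
          rw [← Real.rpow_add hX0]
          norm_num
  filter_upwards [hcore α β hα hαβ hβ, hcore (-β) (-α) (by linarith) (by linarith) (by linarith),
    hsmall, hlog.eventually_ge_atTop 1, hlog.eventually_ge_atTop (11 / τ), eventually_ge_atTop 3]
    with X h1 h2 h3 h4 h5 h6
  have hXr : (3 : ℝ) ≤ X := by exact_mod_cast h6
  have hX0 : (0 : ℝ) < X := by linarith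
  have hX1 : (1 : ℝ) ≤ X := by linarith
  set L : ℝ := Real.log X with hL
  have hL0 : 0 < L := by linarith
  have hτL : 11 ≤ τ * L := by
    rw [div_le_iff₀ hτ0] at h5
    linarith
  set A1 : ℝ := (X : ℝ) ^ s with hA1
  set B1 : ℝ := (X : ℝ) ^ t with hB1
  set A2 : ℝ := (X : ℝ) ^ (2 - 2 * ε - t) with hA2
  set B2 : ℝ := 2 * (X : ℝ) ^ (2 - s) with hB2
  have hA1' : 0 < A1 := by positivity
  have hB1' : 0 < B1 := by positivity
  have hA2' : 0 < A2 := by positivity
  have hB2' : 0 < B2 := by positivity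
  have hAB1 : A1 ≤ 5 * B1 := by
    have : A1 ≤ B1 := Real.rpow_le_rpow_of_exponent_le hX1 hst.le
    linarith
  have hAB2 : A2 ≤ 5 * B2 := by
    have : A2 ≤ (X : ℝ) ^ (2 - s) := Real.rpow_le_rpow_of_exponent_le hX1 (by linarith)
    linarith
  have hsub : BB w α β s t X ⊆ (range (⌊(X : ℝ) ^ (1 - ε)⌋₊ + 1)).erase 0 ∪
      (SS w X α β A1 B1 ∪ SS w X (-β) (-α) A2 B2) := by
    intro a ha
    rw [BB, mem_filter, mem_Icc] at ha
    obtain ⟨⟨ha1, haX⟩, hrough, hfac⟩ := ha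
    rw [mem_union, mem_union]
    by_cases hsm : (a : ℝ) ≤ (X : ℝ) ^ (1 - ε)
    · left
      rw [mem_erase, mem_range]
      exact ⟨by omega, Nat.lt_succ_of_le (Nat.le_floor hsm)⟩
    · right
      push Not at hsm
      obtain ⟨x, y, r, s', hx1, hxa, hz, e1, e2, hxr, hor⟩ :=
        reduce a ha1 ((X : ℝ) ^ w) α β A1 B1 hrough hfac
      rcases hor with ⟨g1, g2, g3, g4⟩ | ⟨g1, g2, g3, g4⟩
      · left
        rw [SS, mem_filter, mem_Icc]
        exact ⟨⟨ha1, haX⟩, hrough, x, y, r, s', hx1, hxa, hz, e1, e2, hxr, g1, g2, g3, g4⟩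
      · right
        rw [SS, mem_filter, mem_Icc]
        have haXr : (a : ℝ) ≤ X := by exact_mod_cast haX
        refine ⟨⟨ha1, haX⟩, hrough, x, y, r, s', hx1, hxa, hz, e1, e2, hxr, g1, g2, ?_, ?_⟩
        · have h7 : ((X : ℝ) ^ (1 - ε)) ^ 2 ≤ (a : ℝ) ^ 2 :=
            pow_le_pow_left₀ (by positivity) hsm.le 2
          have h8 : ((X : ℝ) ^ (1 - ε)) ^ 2 = A2 * B1 := by
            rw [hA2, hB1, ← Real.rpow_natCast, ← Real.rpow_mul hX0.le, ← Real.rpow_add hX0]
            congr 1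
            push_cast
            ring
          rw [h8] at h7
          have h9 : B1 * A2 ≤ B1 * (5 * (x : ℝ) ^ 2) := by linarith
          exact le_of_mul_le_mul_left h9 hB1'
        · have h7 : (a : ℝ) ^ 2 ≤ (X : ℝ) ^ 2 := pow_le_pow_left₀ (Nat.cast_nonneg _) haXr 2
          have h8 : A1 * B2 = 2 * (X : ℝ) ^ 2 := by
            rw [hA1, hB2, mul_left_comm, ← Real.rpow_add hX0, ← Real.rpow_natCast]
            congr 2
            push_cast
            ring
          have h9 : A1 * (x : ℝ) ^ 2 ≤ A1 * B2 := by linarith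
          exact le_of_mul_le_mul_left h9 hA1'
  have hc1 := h1 A1 B1 hA1' hAB1
  have hc2 := h2 A2 B2 hA2' hAB2
  have hη' : -α - -β = η := by rw [hη]; ring
  rw [hη'] at hc2
  have hlog5 : Real.log 5 ≤ 4 := by
    have := Real.log_le_sub_one_of_pos (show (0 : ℝ) < 5 by norm_num)
    linarith
  have hlog10 : Real.log 10 ≤ 9 := by
    have := Real.log_le_sub_one_of_pos (show (0 : ℝ) < 10 by norm_num)
    linarith
  have hl1 : Real.log (5 * B1 / A1) ≤ 4 + τ * L := by
    have h7 : 5 * B1 / A1 = 5 * (X : ℝ) ^ τ := by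
      rw [hA1, hB1, hτ, Real.rpow_sub hX0]
      ring
    rw [h7, Real.log_mul (by norm_num) (by positivity), Real.log_rpow hX0]
    linarith
  have hl2 : Real.log (5 * B2 / A2) ≤ 9 + 3 / 2 * (τ * L) := by
    have h7 : 5 * B2 / A2 = 10 * (X : ℝ) ^ (τ + 2 * ε) := by
      rw [hA2, hB2, show (5 : ℝ) * (2 * (X : ℝ) ^ (2 - s)) / (X : ℝ) ^ (2 - 2 * ε - t) =
        10 * ((X : ℝ) ^ (2 - s) / (X : ℝ) ^ (2 - 2 * ε - t)) by ring, ← Real.rpow_sub hX0]
      congr 2
      rw [hτ]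
      ring
    rw [h7, Real.log_mul (by norm_num) (by positivity), Real.log_rpow hX0]
    have h8 : (τ + 2 * ε) * L ≤ 3 / 2 * (τ * L) := by
      have : τ + 2 * ε ≤ 3 / 2 * τ := by linarith
      calc (τ + 2 * ε) * L ≤ (3 / 2 * τ) * L := by gcongr
        _ = _ := by ring
    linarith
  have hcard0 : (((range (⌊(X : ℝ) ^ (1 - ε)⌋₊ + 1)).erase 0).card : ℝ) ≤ (X : ℝ) ^ (1 - ε) := by
    rw [card_erase_of_mem (mem_range.2 (by omega)), card_range]
    simp only [Nat.add_sub_cancel]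
    exact Nat.floor_le (by positivity)
  have hcard : ((BB w α β s t X).card : ℝ) ≤
      (((range (⌊(X : ℝ) ^ (1 - ε)⌋₊ + 1)).erase 0).card : ℝ) +
        (((SS w X α β A1 B1).card : ℝ) + ((SS w X (-β) (-α) A2 B2).card : ℝ)) := by
    have h7 := (card_le_card hsub).trans (card_union_le _ _)
    have h8 := card_union_le (SS w X α β A1 B1) (SS w X (-β) (-α) A2 B2)
    have h9 : (BB w α β s t X).card ≤ ((range (⌊(X : ℝ) ^ (1 - ε)⌋₊ + 1)).erase 0).card +
        ((SS w X α β A1 B1).card + (SS w X (-β) (-α) A2 B2).card) := by omega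
    exact_mod_cast h9
  have hfac0 : 0 ≤ C * η * X / L ^ 2 := by positivity
  have hS1 : ((SS w X α β A1 B1).card : ℝ) ≤ C * η * X / L ^ 2 * (2 * (τ * L)) := by
    refine hc1.trans (mul_le_mul_of_nonneg_left ?_ hfac0)
    linarith
  have hS2 : ((SS w X (-β) (-α) A2 B2).card : ℝ) ≤ C * η * X / L ^ 2 * (4 * (τ * L)) := by
    refine hc2.trans (mul_le_mul_of_nonneg_left ?_ hfac0)
    linarith
  have hS0 : (X : ℝ) ^ (1 - ε) ≤ C * (η * τ) * X / L := by
    rw [le_div_iff₀ hL0]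
    exact h3
  calc ((BB w α β s t X).card : ℝ)
      ≤ C * (η * τ) * X / L + (C * η * X / L ^ 2 * (2 * (τ * L)) +
          C * η * X / L ^ 2 * (4 * (τ * L))) := by linarith
    _ = 7 * C * (η * τ) * X / L := by
        field_simp
        ring

end Pool.Agent.H578.Sec
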