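import Pool.Agent.Y346.PA.H2a
import Pool.Agent.Y241.PA.LDBase

/-!
# Local densities for the factorisations of `a ^ 2 + 1`
(adapted from `Pool.Agent.Y241.PA.LD2` and `Pool.Agent.Y346.PA.H2a`)
-/

set_option autoImplicit false

namespace Pool.Agent.H578.Sec

open Finset Pool.Agent.Y241.PA Pool.Agent.Y346.PA

theorem exists_ij (p : ℕ) [Fact p.Prime] (hp : p % 4 = 1) :
    ∃ i j : ZMod p, i + j = 0 ∧ i * j = 1 ∧ i ≠ j := by
  have hpp : p.Prime := Fact.out
  obtain ⟨i, hi⟩ := (ZMod.exists_sq_eq_neg_one_iff (p := p)).2 (by omega)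
  have hp2 : (2 : ZMod p) ≠ 0 := by
    intro h
    have h1 : ((2 : ℕ) : ZMod p) = 0 := by exact_mod_cast h
    rw [ZMod.natCast_eq_zero_iff] at h1
    have := Nat.le_of_dvd (by norm_num) h1
    have := hpp.two_le
    have : p = 2 := by omega
    omega
  have hi' : i * i = -1 := hi.symm
  refine ⟨i, -i, by ring, by linear_combination -hi', ?_⟩
  intro h
  have h1 : 2 * i = 0 := by linear_combination h
  rcases mul_eq_zero.1 h1 with h2 | h2
  · exact hp2 h2
  · rw [h2] at hi'
    simp at hi'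

theorem ld4 (p : ℕ) [Fact p.Prime] (hp : p % 4 = 1) (x : ZMod p) (hx : x ≠ 0) :
    4 * p ≤ ((univ : Finset (ZMod p × ZMod p)).filter (fun t =>
      (x ^ 2 + t.1 ^ 2) * (t.2 ^ 2 + ((t.1 * t.2 - 1) / x) ^ 2) = 0)).card + 16 ∧
    ((univ : Finset (ZMod p × ZMod p)).filter (fun t =>
      (x ^ 2 + t.1 ^ 2) * (t.2 ^ 2 + ((t.1 * t.2 - 1) / x) ^ 2) = 0)).card ≤ 4 * p := by
  classical
  obtain ⟨i, j, hs, hpr, hij⟩ := exists_ij p hp
  have hcard : Fintype.card (ZMod p) = p := ZMod.card p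
  have hp2 : 2 ≤ p := (Fact.out : p.Prime).two_le
  set T := (univ : Finset (ZMod p × ZMod p)).filter (fun t =>
      (x ^ 2 + t.1 ^ 2) * (t.2 ^ 2 + ((t.1 * t.2 - 1) / x) ^ 2) = 0) with hT
  let A : ZMod p → Finset (ZMod p × ZMod p) := fun e => univ.filter (fun t => t.1 = e * x)
  let B : ZMod p → Finset (ZMod p × ZMod p) := fun e =>
    univ.filter (fun t => (0 + 1 * t.2) * (-(e * x) + 1 * t.1) = 1)
  have hA : ∀ e, (A e).card = p := by
    intro e
    have h1 : A e = ({e * x} : Finset (ZMod p)) ×ˢ (univ : Finset (ZMod p)) := by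
      ext ⟨y, r⟩
      simp [A, eq_comm]
    rw [h1, card_product, card_singleton, one_mul, card_univ, hcard]
  have hB : ∀ e, (B e).card = p - 1 := by
    intro e
    have := card_hyp (F := ZMod p) 0 1 (-(e * x)) 1 1 one_ne_zero one_ne_zero one_ne_zero
    rw [hcard] at this
    exact this
  have hTU : T = (A i ∪ A j) ∪ (B i ∪ B j) := by
    ext ⟨y, r⟩
    simp only [hT, A, B, mem_filter, mem_univ, true_and, mem_union]
    have e1 : x ^ 2 + y ^ 2 = (y - i * x) * (y - j * x) := by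
      linear_combination (x * y) * hs - x ^ 2 * hpr
    have e2 : ∀ s : ZMod p, r ^ 2 + s ^ 2 = (s - i * r) * (s - j * r) := by
      intro s
      linear_combination (r * s) * hs - r ^ 2 * hpr
    have e3 : ∀ e : ZMod p, (y * r - 1) / x - e * r = 0 ↔
        (0 + 1 * r) * (-(e * x) + 1 * y) = 1 := by
      intro e
      constructor
      · intro h
        field_simp at h
        linear_combination h
      · intro h
        field_simp
        linear_combination h
    rw [e1, e2, mul_eq_zero, mul_eq_zero, mul_eq_zero, e3, e3, sub_eq_zero, sub_eq_zero]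
  -- the hyperbolas are disjoint, and so are the lines
  have hdA : Disjoint (A i) (A j) := by
    rw [Finset.disjoint_left]
    rintro ⟨y, r⟩ h1 h2
    simp only [A, mem_filter, mem_univ, true_and] at h1 h2
    rw [h1] at h2
    exact hij (mul_right_cancel₀ hx h2)
  have hdB : Disjoint (B i) (B j) := by
    rw [Finset.disjoint_left]
    rintro ⟨y, r⟩ h1 h2
    simp only [B, mem_filter, mem_univ, true_and] at h1 h2
    have h3 : r * x * (i - j) = 0 := by linear_combination h2 - h1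
    rcases mul_eq_zero.1 h3 with h4 | h4
    · rcases mul_eq_zero.1 h4 with h5 | h5
      · rw [h5] at h1
        simp at h1
      · exact hx h5
    · exact hij (sub_eq_zero.1 h4)
  have hcA : (A i ∪ A j).card = 2 * p := by
    rw [card_union_of_disjoint hdA, hA, hA]
    ring
  have hcB : (B i ∪ B j).card = 2 * (p - 1) := by
    rw [card_union_of_disjoint hdB, hB, hB]
    ring
  have hcI : ((A i ∪ A j) ∩ (B i ∪ B j)).card ≤ 2 := by
    refine (Finset.card_le_card (t := {(i * x, ((i - j) * x)⁻¹),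
      (j * x, ((j - i) * x)⁻¹)}) ?_).trans Finset.card_le_two
    rintro ⟨y, r⟩ h
    simp only [A, B, mem_inter, mem_union, mem_filter, mem_univ, true_and] at h
    simp only [mem_insert, mem_singleton, Prod.mk.injEq]
    have hne1 : (i - j) * x ≠ 0 := mul_ne_zero (sub_ne_zero.2 hij) hx
    have hne2 : (j - i) * x ≠ 0 := mul_ne_zero (sub_ne_zero.2 hij.symm) hx
    rcases h with ⟨h1 | h1, h2 | h2⟩
    · rw [h1] at h2
      ring_nf at h2
      exact absurd h2 zero_ne_one
    · left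
      refine ⟨h1, ?_⟩
      rw [h1] at h2
      apply eq_inv_of_mul_eq_one_left
      linear_combination h2
    · right
      refine ⟨h1, ?_⟩
      rw [h1] at h2
      apply eq_inv_of_mul_eq_one_left
      linear_combination h2
    · rw [h1] at h2
      ring_nf at h2
      exact absurd h2 zero_ne_one
  have hsum := Finset.card_union_add_card_inter (A i ∪ A j) (B i ∪ B j)
  rw [← hTU, hcA, hcB] at hsum
  constructor
  · omega
  · omega

/-- the sieve condition for factorisations -/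
def hit4 (x : ℕ) (p : ℕ) (y r : ℤ) : Prop :=
  (p : ℤ) ∣ ((x : ℤ) ^ 2 + y ^ 2) * ((x * r) ^ 2 + (y * r - 1) ^ 2)

theorem hit4_per (x p : ℕ) (y r k l : ℤ) : hit4 x p (y + p * k) (r + p * l) ↔ hit4 x p y r := by
  unfold hit4
  rw [← ZMod.intCast_zmod_eq_zero_iff_dvd, ← ZMod.intCast_zmod_eq_zero_iff_dvd]
  push_cast
  rw [ZMod.natCast_self]
  simp only [zero_mul, add_zero]

open scoped Classical in
theorem gg4 (x p : ℕ) (hp : p.Prime) (h3 : p % 4 = 1) (hx : ¬ p ∣ x) :
    4 / (p : ℝ) - 16 / (p : ℝ) ^ 2 ≤ gg (hit4 x) p ∧ gg (hit4 x) p ≤ 4 / p := by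
  have : Fact p.Prime := ⟨hp⟩
  have hx0 : (x : ZMod p) ≠ 0 := by
    rw [Ne, ZMod.natCast_eq_zero_iff]
    exact hx
  obtain ⟨h1, h2⟩ := ld4 p h3 (x : ZMod p) hx0
  have hp0 : (0 : ℝ) < p := by exact_mod_cast hp.pos
  have h4 := card_range_zmod p (fun t => ((x : ZMod p) ^ 2 + t.1 ^ 2) *
        (t.2 ^ 2 + ((t.1 * t.2 - 1) / x) ^ 2) = 0)
        (hit4 x p) (by
    intro y r
    unfold hit4
    rw [← ZMod.intCast_zmod_eq_zero_iff_dvd]
    push_cast
    have h5 : ((x : ZMod p) * r) ^ 2 + (y * r - 1) ^ 2 =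
        x ^ 2 * ((r : ZMod p) ^ 2 + ((y * r - 1) / x) ^ 2) := by
      field_simp
    rw [h5, mul_left_comm]
    constructor
    · intro h
      rcases mul_eq_zero.1 h with h | h
      · exact absurd h (pow_ne_zero 2 hx0)
      · exact h
    · intro h
      rw [h, mul_zero])
  have h5 : gg (hit4 x) p = ((univ.filter (fun t : ZMod p × ZMod p =>
      ((x : ZMod p) ^ 2 + t.1 ^ 2) *
        (t.2 ^ 2 + ((t.1 * t.2 - 1) / x) ^ 2) = 0)).card : ℝ) /
          (p : ℝ) ^ 2 := by
    unfold gg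
    rw [h4]
    congr!
  set N : ℕ := (univ.filter (fun t : ZMod p × ZMod p =>
      ((x : ZMod p) ^ 2 + t.1 ^ 2) *
        (t.2 ^ 2 + ((t.1 * t.2 - 1) / x) ^ 2) = 0)).card with hN
  have h1' : 4 * (p : ℝ) ≤ N + 16 := by
    have : 4 * p ≤ N + 16 := by convert h1
    exact_mod_cast this
  have h2' : (N : ℝ) ≤ 4 * p := by
    have : N ≤ 4 * p := by convert h2
    exact_mod_cast this
  rw [h5]
  constructor
  · rw [le_div_iff₀ (by positivity)]
    have : (4 / (p : ℝ) - 16 / (p : ℝ) ^ 2) * (p : ℝ) ^ 2 = 4 * p - 16 := by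
      field_simp
    linarith
  · rw [div_le_div_iff₀ (by positivity) hp0]
    have h6 := mul_le_mul_of_nonneg_right h2' hp0.le
    linarith

end Pool.Agent.H578.Sec
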