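import Pool.Agent.Y346.PA.KS

/-!
# The sieve on a modular hyperbola, short intervals (adapted from `Pool.Agent.Y346.PA.KS`)
-/

set_option autoImplicit false

namespace Pool.Agent.H578.Sec

open Finset
open Pool.Agent.Y346.PA
open scoped Classical

theorem ksY (kl : S_KL) (κ : ℕ) : ∃ C : ℕ, 1 ≤ C ∧ ∀ (x R : ℕ) (y1 y2 : ℤ), C ≤ x → x ≤ R →
    (y2 : ℝ) - y1 ≤ 4 * x → (x : ℝ) ^ (15 / 16 : ℝ) ≤ (y2 : ℝ) - y1 →
    ∀ (P : Finset ℕ) (hit : ℕ → ℤ → ℤ → Prop),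
    (∀ p ∈ P, p.Prime ∧ C < p ∧ p ^ C ≤ x ∧ ¬ p ∣ x) →
    (∀ p ∈ P, ∀ y r k l : ℤ, hit p (y + p * k) (r + p * l) ↔ hit p y r) →
    (∀ p ∈ P, gg hit p ≤ κ / p) →
    (((Icc y1 y2 ×ˢ Icc (-(R : ℤ)) R).filter (fun t : ℤ × ℤ =>
        (x : ℤ) ∣ t.1 * t.2 - 1 ∧ ∀ p ∈ P, ¬ hit p t.1 t.2)).card : ℝ) ≤
      C * (((y2 : ℝ) - y1) / x) * R * ∏ p ∈ P, (1 - gg hit p) := by
  obtain ⟨C1, hC1, hkl⟩ := kl (1 / 16) (by norm_num)
  obtain ⟨C0, hC0, hfl⟩ := Pool.Agent.H20R2.fLem κ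
  obtain ⟨C2, hC2⟩ := exists_nat_ge (30 + 18 * C1 * Real.exp (2 * κ))
  obtain ⟨C, hCC0, hCC2, hCa, hCb, hCκ⟩ : ∃ C : ℕ, C0 ≤ C ∧ C2 ≤ C ∧ 64 * C0 ^ 2 ≤ C ∧
      2 ^ (32 * C0 ^ 2) ≤ C ∧ 8 * κ ≤ C := by
    obtain ⟨c2, hc2⟩ : ∃ c2 : ℕ, c2 = 2 ^ (32 * C0 ^ 2) := ⟨_, rfl⟩
    rw [← hc2]
    exact ⟨C0 + 64 * C0 ^ 2 + c2 + 8 * κ + C2, by omega, by omega, by omega, by omega, by omega⟩
  have hC1' : 1 ≤ C := by omega
  refine ⟨C, hC1', ?_⟩
  intro x R y1 y2 hCx hxR hYxr hYl P hit hP hper hg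
  have hx1 : 1 ≤ x := by omega
  have hx0 : (0 : ℝ) < x := by exact_mod_cast hx1
  have hx1r : (1 : ℝ) ≤ x := by exact_mod_cast hx1
  have hxRr : (x : ℝ) ≤ R := by exact_mod_cast hxR
  have hR0 : (0 : ℝ) < R := by linarith
  set Y : ℝ := (y2 : ℝ) - y1 with hYdef
  have hY1 : (1 : ℝ) ≤ Y := le_trans (Real.one_le_rpow hx1r (by norm_num)) hYl
  have hPp : ∀ p ∈ P, p.Prime := fun p hp => (hP p hp).1
  obtain ⟨J, hJ1, hJ2⟩ := exists_J C0 C hCa hCb x hCx P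
    (fun p hp => ⟨(hP p hp).1, (hP p hp).2.2.1⟩)
  set L : ℕ := (2 ^ 2 ^ J) ^ (C0 * C0) with hL
  have hC00 : 1 ≤ C0 * C0 := Nat.mul_pos hC0 hC0
  have hJL : J + 2 ≤ L := by
    have h1 : J < 2 ^ J := Nat.lt_two_pow_self
    have h2 : 2 ^ J < 2 ^ 2 ^ J := Nat.lt_two_pow_self
    have h3 : 2 ^ 2 ^ J ≤ L := Nat.le_self_pow (by omega) _
    omega
  have hLr : (0 : ℝ) < L := by
    have : 0 < L := by omega
    exact_mod_cast this
  have hL1 : (1 : ℝ) ≤ L := by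
    have : 1 ≤ L := by omega
    exact_mod_cast this
  -- the points
  set a : ℤ := y1 - 1 with ha
  set b : ℤ := y2 with hb
  set a' : ℤ := -R - 1 with ha'
  set b' : ℤ := (R : ℤ) with hb'
  have hab : a ≤ b := by
    have h1 : (y1 : ℝ) ≤ y2 := by linarith
    have h2 : y1 ≤ y2 := by exact_mod_cast h1
    omega
  have hab' : a' ≤ b' := by omega
  set B : Finset (ℤ × ℤ) := (Ioc a b ×ˢ Ioc a' b').filter
    (fun t : ℤ × ℤ => (x : ℤ) ∣ t.1 * t.2 - 1) with hB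
  set enc : ℤ × ℤ → ℕ := Encodable.encode with henc
  have hinj : Function.Injective enc := Encodable.encode_injective
  set Om : Finset ℕ := B.image enc with hOm
  set hitN : ℕ → ℕ → Prop := fun p m => ∃ t ∈ B, enc t = m ∧ hit p t.1 t.2 with hhitN
  have hiff : ∀ p, ∀ t ∈ B, hitN p (enc t) ↔ hit p t.1 t.2 := by
    intro p t ht
    constructor
    · rintro ⟨t', _, h1, h2⟩
      rw [← hinj h1]
      exact h2
    · intro h
      exact ⟨t, ht, rfl, h⟩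
  have hcards : ∀ (Q1 : ℕ → Prop) (Q2 : ℤ × ℤ → Prop) (_ : DecidablePred Q1)
      (_ : DecidablePred Q2), (∀ t ∈ B, Q1 (enc t) ↔ Q2 t) →
      ((Om.filter Q1).card : ℝ) = ((B.filter Q2).card : ℝ) := by
    intro Q1 Q2 _ _ h
    rw [hOm, filter_image, card_image_of_injective _ hinj]
    congr 2
    apply filter_congr
    intro t ht
    exact h t ht
  set A : ℝ := ((b : ℝ) - a) * ((b' : ℝ) - a') * x.totient / (x : ℝ) ^ 2 with hA
  have hba : (b : ℝ) - a = Y + 1 := by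
    rw [ha, hb, hYdef]
    push_cast
    ring
  have hba' : (b' : ℝ) - a' = 2 * R + 1 := by
    rw [ha', hb']
    push_cast
    ring
  have hA0 : 0 ≤ A := by
    rw [hA, hba, hba']
    positivity
  set E : ℝ := C1 * (x : ℝ) ^ (1 / 16 : ℝ) *
    (Real.sqrt x + (((b : ℝ) - a) + ((b' : ℝ) - a')) / Real.sqrt x) with hE
  have hE0 : 0 ≤ E := by
    rw [hE, hba, hba']
    positivity
  have hfl' := hfl C0 J C0 P (gg hit) le_rfl le_rfl
    (fun p hp => ⟨(hP p hp).1, by have := (hP p hp).2.1; omega, hJ1 p hp⟩)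
    (by
      intro p hp
      have hp1 : (1 : ℝ) < p := by exact_mod_cast (hP p hp).1.one_lt
      refine ⟨?_, (hg p hp).trans ?_⟩
      · unfold gg
        positivity
      · gcongr
        linarith)
    Om (fun _ => 1) hitN A (fun _ => (L : ℝ) ^ 2 * E) (fun _ _ => zero_le_one) hA0
    (by
      intro T hTP hTL
      have hTp : ∀ p ∈ T, p.Prime := fun p hp => hPp p (hTP hp)
      rw [sum_const, nsmul_eq_mul, mul_one]
      rw [hcards (fun m => ∀ p ∈ T, hitN p m) (fun t => ∀ p ∈ T, hit p t.1 t.2) _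
        (by infer_instance) (fun t ht => forall₂_congr fun p _ => hiff p t ht)]
      have hcc := class_count x hx1 a b a' b' E T hTp hit (fun p hp => hper p (hTP hp)) (by
        intro y0 r0
        have hcop : Nat.Coprime x (∏ p ∈ T, p) := by
          apply Nat.Coprime.prod_right
          intro p hp
          rw [Nat.coprime_comm, (hTp p hp).coprime_iff_not_dvd]
          exact (hP p (hTP hp)).2.2.2
        have h1 := hkl x (∏ p ∈ T, p) hx1 (prod_pos fun p hp => (hTp p hp).pos) hcop a b a' b'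
          y0 r0 hab hab'
        exact h1)
      rw [← hA] at hcc
      have h2 : B.filter (fun t => ∀ p ∈ T, hit p t.1 t.2) =
          (Ioc a b ×ˢ Ioc a' b').filter (fun t : ℤ × ℤ => (x : ℤ) ∣ t.1 * t.2 - 1 ∧
            ∀ p ∈ T, hit p t.1 t.2) := by
        rw [hB, filter_filter]
      rw [h2]
      refine hcc.trans ?_
      apply mul_le_mul_of_nonneg_right _ hE0
      have h3 : ((∏ p ∈ T, p : ℕ) : ℝ) ≤ L := by exact_mod_cast hTL
      gcongr)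
  rw [sum_const, sum_const, nsmul_eq_mul, nsmul_eq_mul, mul_one,
    hcards (fun m => ∀ p ∈ P, ¬ hitN p m) (fun t => ∀ p ∈ P, ¬ hit p t.1 t.2) _
        (by infer_instance) (fun t ht => forall₂_congr fun p _ => not_congr (hiff p t ht))] at hfl'
  have h2 : B.filter (fun t => ∀ p ∈ P, ¬ hit p t.1 t.2) =
      (Icc y1 y2 ×ˢ Icc (-(R : ℤ)) R).filter (fun t : ℤ × ℤ =>
        (x : ℤ) ∣ t.1 * t.2 - 1 ∧ ∀ p ∈ P, ¬ hit p t.1 t.2) := by
    rw [hB, filter_filter]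
    congr 1
    ext t
    rw [mem_product, mem_product, mem_Ioc, mem_Ioc, mem_Icc, mem_Icc, ha, ha']
    constructor
    · rintro ⟨⟨h1, h2⟩, ⟨h3, h4⟩⟩
      exact ⟨⟨by linarith, h2⟩, ⟨by linarith, h4⟩⟩
    · rintro ⟨⟨h1, h2⟩, ⟨h3, h4⟩⟩
      exact ⟨⟨by linarith, h2⟩, ⟨by linarith, h4⟩⟩
  rw [h2] at hfl'
  set N : ℝ := (((Icc y1 y2 ×ˢ Icc (-(R : ℤ)) R).filter (fun t : ℤ × ℤ =>
        (x : ℤ) ∣ t.1 * t.2 - 1 ∧ ∀ p ∈ P, ¬ hit p t.1 t.2)).card : ℝ) with hN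
  set V : ℝ := ∏ p ∈ P, (1 - gg hit p) with hV
  have hlow := prod_lower κ C hC1' hCκ P (gg hit) x hx1
    (fun p hp => ⟨(hP p hp).1, (hP p hp).2.1, (hP p hp).2.2.1⟩) hg
  rw [← hV] at hlow
  have hV0 : 0 ≤ V := by
    have h3 : 0 ≤ Real.exp (2 * κ) * V := le_trans (by positivity) hlow
    exact nonneg_of_mul_nonneg_right h3 (Real.exp_pos _)
  have h3 := (abs_le.1 hfl').2
  have hhalf : (1 / 2 : ℝ) ^ C0 ≤ 1 := pow_le_one₀ (by norm_num) (by norm_num)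
  -- the error
  have hcard := card_small_prod P hPp L
  have hcardr : ((P.powerset.filter (fun T : Finset ℕ => ∏ p ∈ T, p ≤ L)).card : ℝ) ≤ 2 * L := by
    have h4 : ((P.powerset.filter (fun T : Finset ℕ => ∏ p ∈ T, p ≤ L)).card : ℝ) ≤ L + 1 := by
      exact_mod_cast hcard
    linarith
  have hJLr : (J : ℝ) + 2 ≤ L := by exact_mod_cast hJL
  have hL4 : (L : ℝ) ^ 4 ≤ (x : ℝ) ^ (1 / 8 : ℝ) := by
    have h4 : ((L : ℝ) ^ 32) ≤ x := by exact_mod_cast hJ2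
    have h5 : ((L : ℝ) ^ 32) ^ (1 / 8 : ℝ) ≤ (x : ℝ) ^ (1 / 8 : ℝ) := by gcongr
    have h6 : ((L : ℝ) ^ 32) ^ (1 / 8 : ℝ) = (L : ℝ) ^ 4 := by
      rw [← Real.rpow_natCast, ← Real.rpow_mul hLr.le, ← Real.rpow_natCast]
      norm_num
    linarith
  have hsx : 0 < Real.sqrt x := Real.sqrt_pos.2 hx0
  have hsxx : Real.sqrt x * Real.sqrt x = x := Real.mul_self_sqrt hx0.le
  have hE9 : E ≤ C1 * (x : ℝ) ^ (1 / 16 : ℝ) * (9 * R / Real.sqrt x) := by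
    rw [hE, hba, hba']
    have h5 : Real.sqrt x + (Y + 1 + (2 * R + 1)) / Real.sqrt x ≤ 9 * R / Real.sqrt x := by
      have h6 : Real.sqrt x = x / Real.sqrt x := by
        rw [eq_div_iff hsx.ne']
        exact hsxx
      calc Real.sqrt x + (Y + 1 + (2 * R + 1)) / Real.sqrt x
          = x / Real.sqrt x + (Y + 1 + (2 * R + 1)) / Real.sqrt x := by rw [← h6]
        _ = (x + Y + 2 + 2 * R) / Real.sqrt x := by ring
        _ ≤ 9 * R / Real.sqrt x := by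
          gcongr
          linarith
    have h7 : 0 ≤ C1 * (x : ℝ) ^ (1 / 16 : ℝ) := by positivity
    gcongr
  have herr : ((J : ℝ) + 2) *
      (((P.powerset.filter (fun T : Finset ℕ => ∏ p ∈ T, p ≤ L)).card : ℝ) *
        ((L : ℝ) ^ 2 * E)) ≤ 18 * C1 * R * ((x : ℝ) ^ (-(1 / 4) : ℝ) * (x : ℝ) ^ (-(1 / 16) : ℝ)) := by
    calc _ ≤ (L : ℝ) * ((2 * L) * ((L : ℝ) ^ 2 *
          (C1 * (x : ℝ) ^ (1 / 16 : ℝ) * (9 * R / Real.sqrt x)))) := by gcongr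
      _ = 18 * C1 * R * ((L : ℝ) ^ 4 * (x : ℝ) ^ (1 / 16 : ℝ) / Real.sqrt x) := by ring
      _ ≤ 18 * C1 * R * ((x : ℝ) ^ (1 / 8 : ℝ) * (x : ℝ) ^ (1 / 16 : ℝ) / Real.sqrt x) := by gcongr
      _ = 18 * C1 * R * ((x : ℝ) ^ (-(1 / 4) : ℝ) * (x : ℝ) ^ (-(1 / 16) : ℝ)) := by
        congr 1
        rw [Real.sqrt_eq_rpow, ← Real.rpow_add hx0, ← Real.rpow_sub hx0, ← Real.rpow_add hx0]
        norm_num
  have hYq : (x : ℝ) ^ (-(1 / 16) : ℝ) ≤ Y / x := by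
    rw [le_div_iff₀ hx0]
    refine le_trans (le_of_eq ?_) hYl
    nth_rewrite 2 [← Real.rpow_one (x : ℝ)]
    rw [← Real.rpow_add hx0]
    norm_num
  have hYq0 : 0 ≤ Y / x := by positivity
  have hA15 : A ≤ 9 * (Y / x) * R := by
    rw [hA, hba, hba', div_le_iff₀ (by positivity)]
    have h5 : (x.totient : ℝ) ≤ x := by exact_mod_cast Nat.totient_le x
    calc (Y + 1) * (2 * R + 1) * x.totient ≤ (3 * Y) * (3 * R) * x := by
          gcongr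
          · linarith
          · linarith
      _ = 9 * (Y / x) * R * (x : ℝ) ^ 2 := by
          field_simp
          ring
  have hC2' : 30 + 18 * C1 * Real.exp (2 * κ) ≤ C := by
    have : (C2 : ℝ) ≤ C := by exact_mod_cast hCC2
    linarith
  have hN1 : N ≤ A * V + (1 / 2 : ℝ) ^ C0 * (A * V) +
      18 * C1 * R * ((x : ℝ) ^ (-(1 / 4) : ℝ) * (x : ℝ) ^ (-(1 / 16) : ℝ)) := by
    linarith
  have hAV : 0 ≤ A * V := mul_nonneg hA0 hV0
  have hRV : 0 ≤ (Y / x) * R * V := by positivity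
  calc N ≤ A * V + (1 / 2 : ℝ) ^ C0 * (A * V) +
        18 * C1 * R * ((x : ℝ) ^ (-(1 / 4) : ℝ) * (x : ℝ) ^ (-(1 / 16) : ℝ)) := hN1
    _ ≤ A * V + 1 * (A * V) + 18 * C1 * R * ((Real.exp (2 * κ) * V) * (Y / x)) := by gcongr
    _ = 2 * A * V + 18 * C1 * R * ((Real.exp (2 * κ) * V) * (Y / x)) := by ring
    _ ≤ 2 * (9 * (Y / x) * R) * V +
        18 * C1 * R * ((Real.exp (2 * κ) * V) * (Y / x)) := by gcongr
    _ = (18 + 18 * C1 * Real.exp (2 * κ)) * ((Y / x) * R * V) := by ring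
    _ ≤ C * ((Y / x) * R * V) := by
        apply mul_le_mul_of_nonneg_right _ hRV
        linarith
    _ = _ := by ring

end Pool.Agent.H578.Sec
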