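import Pool.Agent.H578.Sec.Box
import Pool.Agent.Results.MP_7169d5_nt.ShortIntervalsFewExceptions

/-!
# Almost primes `a ^ 2 + 1` in almost all short intervals whose Gaussian factors avoid given boxes
-/

set_option autoImplicit false

namespace Pool.Agent.H578.Sec

open Finset Filter Topology
open Pool.Agent.Results.MP_7169d5_nt.ShortIntervalsFewExceptions (almostPrimes)
open scoped Classical

theorem double_count (S : Finset ℕ) (X H : ℕ) :
    ∑ N ∈ Icc 1 X, ((Ioc N (N + H)).filter (fun a => a ∈ S)).card ≤ H * S.card := by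
  have h1 : ∀ N ∈ Icc 1 X, ((Ioc N (N + H)).filter (fun a => a ∈ S)).card =
      ∑ a ∈ S, if (N < a ∧ a ≤ N + H) then 1 else 0 := by
    intro N _
    rw [← card_filter]
    congr 1
    ext a
    rw [mem_filter, mem_filter, mem_Ioc]
    tauto
  rw [sum_congr rfl h1, sum_comm]
  have h2 : ∀ a ∈ S, ∑ N ∈ Icc 1 X, (if (N < a ∧ a ≤ N + H) then 1 else 0) ≤ H := by
    intro a _
    rw [← card_filter]
    have h3 : (Icc 1 X).filter (fun N => N < a ∧ a ≤ N + H) ⊆ Ico (a - H) a := by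
      intro N hN
      rw [mem_filter, mem_Icc] at hN
      rw [mem_Ico]
      omega
    refine (card_le_card h3).trans ?_
    rw [Nat.card_Ico]
    omega
  refine (sum_le_sum h2).trans ?_
  rw [sum_const, smul_eq_mul, mul_comm]

/-- the properties of the good integers -/
def Good (w : ℝ) (k : ℕ) (α β s t : Fin k → ℝ) (X : ℕ) (a : ℕ) : Prop :=
  (a ^ 2 + 1).primeFactorsList.length ≤ 3 ∧ Rough ((X : ℝ) ^ w) a ∧
    ∀ i, ¬ HasFactor a (α i) (β i) ((X : ℝ) ^ s i) ((X : ℝ) ^ t i)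

theorem hasFactor_mono {a : ℕ} {α β A B A' B' : ℝ} (h : HasFactor a α β A B) (hA : A' ≤ A)
    (hB : B ≤ B') : HasFactor a α β A' B' := by
  obtain ⟨u, v, r, s, h1, h2, h3, h4, h5, h6, h7, h8, h9, h10⟩ := h
  exact ⟨u, v, r, s, h1, h2, h3, h4, h5, h6, h7, h8, hA.trans h9, h10.trans hB⟩

theorem short_gen (h w z e δ : ℝ) (h1 : h ≤ 1) (hw : 0 < w) (hwz : w < z) (he : e < 1)
    (hδ : 0 < δ)
    (hP : ∀ᶠ X : ℕ in atTop, (((Icc 1 X).filter (fun N : ℕ =>
      (almostPrimes 1 3 ((X : ℝ) ^ z) N ⌊(X : ℝ) ^ h⌋₊ : ℝ) <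
        δ * (X : ℝ) ^ h / Real.log X)).card : ℝ) ≤ (X : ℝ) ^ e) :
    ∃ δ' : ℝ, 0 < δ' ∧ ∀ ε : ℝ, 0 < ε →
    ∃ c : ℝ, 0 < c ∧ ∀ (k : ℕ) (α β s t : Fin k → ℝ),
      (∀ i, -1 ≤ α i ∧ α i < β i ∧ β i ≤ 1 ∧ s i < t i) →
      ∑ i, (β i - α i) * (t i - s i) ≤ c → ∀ᶠ X : ℕ in atTop,
        (((Icc 1 X).filter (fun N : ℕ =>
          (((Ioc N (N + ⌊(X : ℝ) ^ h⌋₊)).filter (Good w k α β s t X)).card : ℝ) <
            δ' * (X : ℝ) ^ h / Real.log X)).card : ℝ) ≤ ε * X := by
  obtain ⟨C, hC, hbb⟩ := bb_le w hw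
  refine ⟨δ / 2, by positivity, ?_⟩
  intro ε hε
  refine ⟨ε * δ / (24 * C), by positivity, ?_⟩
  intro k α β s t hbox harea
  have hlog : Tendsto (fun X : ℕ => Real.log (X : ℝ)) atTop atTop :=
    Real.tendsto_log_atTop.comp tendsto_natCast_atTop_atTop
  -- the boxes, for `2 X`
  have hbad : ∀ᶠ X : ℕ in atTop, ∀ i : Fin k,
      ((BB w (α i) (β i) (s i - (t i - s i)) (t i + (t i - s i)) (2 * X)).card : ℝ) ≤
        C * ((β i - α i) * (3 * (t i - s i))) * (2 * X : ℕ) / Real.log (2 * X : ℕ) := by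
    rw [eventually_all]
    intro i
    have h2 := hbb (α i) (β i) (s i - (t i - s i)) (t i + (t i - s i)) (hbox i).1 (hbox i).2.1
      (hbox i).2.2.1 (by linarith [(hbox i).2.2.2])
    have h3 : Tendsto (fun X : ℕ => 2 * X) atTop atTop :=
      tendsto_id.const_mul_atTop' (by norm_num)
    filter_upwards [h3.eventually h2] with X h4
    refine h4.trans (le_of_eq ?_)
    ring
  have hmono : ∀ᶠ X : ℕ in atTop, ∀ i : Fin k,
      ((2 * X : ℕ) : ℝ) ^ (s i - (t i - s i)) ≤ (X : ℝ) ^ s i ∧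
        (X : ℝ) ^ t i ≤ ((2 * X : ℕ) : ℝ) ^ (t i + (t i - s i)) := by
    rw [eventually_all]
    intro i
    have hτ : 0 < t i - s i := by linarith [(hbox i).2.2.2]
    filter_upwards [hlog.eventually_ge_atTop
      ((|s i - (t i - s i)| * Real.log 2) / (t i - s i)),
      hlog.eventually_ge_atTop ((|t i + (t i - s i)| * Real.log 2) / (t i - s i)),
      eventually_ge_atTop 1] with X g1 g2 g3
    have hX0 : (0 : ℝ) < X := by exact_mod_cast g3
    have hl2 : 0 < Real.log 2 := Real.log_pos (by norm_num)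
    rw [div_le_iff₀ hτ] at g1 g2
    push_cast
    constructor
    · rw [Real.rpow_def_of_pos (by positivity), Real.rpow_def_of_pos hX0]
      apply Real.exp_le_exp.2
      rw [Real.log_mul (by norm_num) hX0.ne']
      have h5 := mul_le_mul_of_nonneg_right (le_abs_self (s i - (t i - s i))) hl2.le
      nlinarith
    · rw [Real.rpow_def_of_pos hX0, Real.rpow_def_of_pos (by positivity)]
      apply Real.exp_le_exp.2
      rw [Real.log_mul (by norm_num) hX0.ne']
      have h5 := mul_le_mul_of_nonneg_right (neg_abs_le (t i + (t i - s i))) hl2.le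
      nlinarith
  have hexc : ∀ᶠ X : ℕ in atTop, (X : ℝ) ^ e ≤ ε / 2 * X := by
    have h3 : Tendsto (fun X : ℕ => (X : ℝ) ^ (1 - e)) atTop atTop :=
      (tendsto_rpow_atTop (by linarith)).comp tendsto_natCast_atTop_atTop
    filter_upwards [h3.eventually_ge_atTop (2 / ε), eventually_ge_atTop 1] with X g1 g2
    have hX0 : (0 : ℝ) < X := by exact_mod_cast g2
    rw [div_le_iff₀ hε] at g1
    have h4 : (X : ℝ) = (X : ℝ) ^ e * (X : ℝ) ^ (1 - e) := by
      rw [← Real.rpow_add hX0]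
      norm_num
    have h5 : (0 : ℝ) < (X : ℝ) ^ e := by positivity
    have h6 : (X : ℝ) ^ e * 2 ≤ (X : ℝ) ^ e * ((X : ℝ) ^ (1 - e) * ε) := by gcongr
    nlinarith
  have hrough : ∀ᶠ X : ℕ in atTop, ((2 * X : ℕ) : ℝ) ^ w ≤ (X : ℝ) ^ z := by
    have h3 : Tendsto (fun X : ℕ => (X : ℝ) ^ (z - w)) atTop atTop :=
      (tendsto_rpow_atTop (by linarith)).comp tendsto_natCast_atTop_atTop
    filter_upwards [h3.eventually_ge_atTop ((2 : ℝ) ^ w), eventually_ge_atTop 1] with X g1 g2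
    have hX0 : (0 : ℝ) < X := by exact_mod_cast g2
    push_cast
    rw [Real.mul_rpow (by norm_num) hX0.le]
    calc (2 : ℝ) ^ w * (X : ℝ) ^ w ≤ (X : ℝ) ^ (z - w) * (X : ℝ) ^ w := by gcongr
      _ = (X : ℝ) ^ z := by
          rw [← Real.rpow_add hX0]
          congr 1
          ring
  filter_upwards [hP, hbad, hmono, hexc, hrough, hlog.eventually_ge_atTop 1, eventually_ge_atTop 3]
    with X g1 g2 g3 g4 g5 g6 g7
  have hXr : (3 : ℝ) ≤ X := by exact_mod_cast g7
  have hX0 : (0 : ℝ) < X := by linarith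
  set L : ℝ := Real.log X with hL
  have hL0 : 0 < L := by linarith
  set H : ℕ := ⌊(X : ℝ) ^ h⌋₊ with hH
  have hHX : (H : ℝ) ≤ (X : ℝ) ^ h := Nat.floor_le (by positivity)
  have hXh : (0 : ℝ) < (X : ℝ) ^ h := by positivity
  have hHX1 : H ≤ X := by
    have h2 : (X : ℝ) ^ h ≤ X := by
      calc (X : ℝ) ^ h ≤ (X : ℝ) ^ (1 : ℝ) := Real.rpow_le_rpow_of_exponent_le (by linarith) h1
        _ = X := Real.rpow_one _
    have h3 : (H : ℝ) ≤ X := hHX.trans h2
    exact_mod_cast h3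
  -- the bad integers
  set S : Finset ℕ := univ.biUnion (fun i : Fin k =>
    BB w (α i) (β i) (s i - (t i - s i)) (t i + (t i - s i)) (2 * X)) with hS
  have hSc : (S.card : ℝ) ≤ ε * δ / 4 * X / L := by
    have h2 : (S.card : ℝ) ≤ ∑ i : Fin k, ((BB w (α i) (β i) (s i - (t i - s i))
        (t i + (t i - s i)) (2 * X)).card : ℝ) := by
      exact_mod_cast card_biUnion_le
    have h3 : L ≤ Real.log (2 * X : ℕ) := by
      apply Real.log_le_log hX0
      push_cast
      linarith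
    have h4 : ∀ i : Fin k, ((BB w (α i) (β i) (s i - (t i - s i))
        (t i + (t i - s i)) (2 * X)).card : ℝ) ≤
          6 * C * X / L * ((β i - α i) * (t i - s i)) := by
      intro i
      refine (g2 i).trans ?_
      have h5 : 0 ≤ (β i - α i) * (t i - s i) :=
        mul_nonneg (by linarith [(hbox i).2.1]) (by linarith [(hbox i).2.2.2])
      calc C * ((β i - α i) * (3 * (t i - s i))) * (2 * X : ℕ) / Real.log (2 * X : ℕ)
          ≤ C * ((β i - α i) * (3 * (t i - s i))) * (2 * X : ℕ) / L := by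
            apply div_le_div_of_nonneg_left _ hL0 h3
            have : C * ((β i - α i) * (3 * (t i - s i))) * (2 * X : ℕ) =
                3 * C * (2 * X : ℕ) * ((β i - α i) * (t i - s i)) := by ring
            rw [this]
            positivity
        _ = 6 * C * X / L * ((β i - α i) * (t i - s i)) := by
            push_cast
            ring
    calc (S.card : ℝ) ≤ ∑ i : Fin k, 6 * C * X / L * ((β i - α i) * (t i - s i)) :=
          h2.trans (sum_le_sum fun i _ => h4 i)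
      _ = 6 * C * X / L * ∑ i : Fin k, ((β i - α i) * (t i - s i)) := by rw [mul_sum]
      _ ≤ 6 * C * X / L * (ε * δ / (24 * C)) := by gcongr
      _ = ε * δ / 4 * X / L := by
          field_simp
          ring
  -- good or bad
  have hcount : ∀ N : ℕ, 1 ≤ N → N ≤ X → almostPrimes 1 3 ((X : ℝ) ^ z) N H ≤
      ((Ioc N (N + H)).filter (Good w k α β s t X)).card +
        ((Ioc N (N + H)).filter (fun a => a ∈ S)).card := by
    intro N hN1 hNX
    unfold almostPrimes
    refine (card_le_card ?_).trans (card_union_le _ _)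
    intro a ha
    rw [mem_filter] at ha
    obtain ⟨ha, hlen, hpr⟩ := ha
    rw [mem_union, mem_filter, mem_filter]
    have ha' := mem_Ioc.1 ha
    have hnat : ((a : ℤ) ^ 2 + 1).natAbs = a ^ 2 + 1 := by
      have h2 : ((a : ℤ) ^ 2 + 1) = ((a ^ 2 + 1 : ℕ) : ℤ) := by push_cast; ring
      rw [h2, Int.natAbs_natCast]
    rw [hnat] at hlen
    have hr : Rough ((X : ℝ) ^ z) a := by
      intro p hp hpa
      apply hpr p hp
      exact_mod_cast hpa
    have hr2 : Rough (((2 * X : ℕ) : ℝ) ^ w) a := fun p hp hpa => g5.trans (hr p hp hpa)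
    have hr1 : Rough ((X : ℝ) ^ w) a := by
      intro p hp hpa
      refine le_trans ?_ (hr2 p hp hpa)
      push_cast
      gcongr
      linarith
    by_cases hg : ∀ i, ¬ HasFactor a (α i) (β i) ((X : ℝ) ^ s i) ((X : ℝ) ^ t i)
    · left
      exact ⟨ha, hlen, hr1, hg⟩
    · right
      push Not at hg
      obtain ⟨i, hi⟩ := hg
      refine ⟨ha, ?_⟩
      rw [hS, mem_biUnion]
      refine ⟨i, mem_univ _, ?_⟩
      rw [BB, mem_filter, mem_Icc]
      exact ⟨⟨by omega, by omega⟩, hr2, hasFactor_mono hi (g3 i).1 (g3 i).2⟩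
  -- the exceptions
  set E1 : Finset ℕ := (Icc 1 X).filter (fun N : ℕ =>
    (almostPrimes 1 3 ((X : ℝ) ^ z) N H : ℝ) < δ * (X : ℝ) ^ h / L) with hE1
  set E2 : Finset ℕ := (Icc 1 X).filter (fun N : ℕ =>
    δ / 2 * (X : ℝ) ^ h / L ≤ (((Ioc N (N + H)).filter (fun a => a ∈ S)).card : ℝ)) with hE2
  have hE2c : (E2.card : ℝ) ≤ ε / 2 * X := by
    have h2 : (E2.card : ℝ) * (δ / 2 * (X : ℝ) ^ h / L) ≤ H * S.card := by
      calc (E2.card : ℝ) * (δ / 2 * (X : ℝ) ^ h / L) = ∑ N ∈ E2, (δ / 2 * (X : ℝ) ^ h / L) := by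
            rw [sum_const, nsmul_eq_mul]
        _ ≤ ∑ N ∈ E2, (((Ioc N (N + H)).filter (fun a => a ∈ S)).card : ℝ) := by
            apply sum_le_sum
            intro N hN
            rw [hE2, mem_filter] at hN
            exact hN.2
        _ ≤ ∑ N ∈ Icc 1 X, (((Ioc N (N + H)).filter (fun a => a ∈ S)).card : ℝ) := by
            apply sum_le_sum_of_subset_of_nonneg (filter_subset _ _)
            intro N _ _
            positivity
        _ ≤ H * S.card := by exact_mod_cast double_count S X H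
    have h3 : (H : ℝ) * S.card ≤ (X : ℝ) ^ h * (ε * δ / 4 * X / L) := by gcongr
    have h4 : (E2.card : ℝ) * (δ / 2 * (X : ℝ) ^ h / L) ≤
        (ε / 2 * X) * (δ / 2 * (X : ℝ) ^ h / L) := by
      refine (h2.trans h3).trans (le_of_eq ?_)
      ring
    exact le_of_mul_le_mul_right h4 (by positivity)
  have hsub : (Icc 1 X).filter (fun N : ℕ =>
      (((Ioc N (N + H)).filter (Good w k α β s t X)).card : ℝ) < δ / 2 * (X : ℝ) ^ h / L) ⊆
      E1 ∪ E2 := by
    intro N hN
    rw [mem_filter] at hN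
    obtain ⟨hN, hNg⟩ := hN
    have hN' := mem_Icc.1 hN
    rw [mem_union, hE1, hE2, mem_filter, mem_filter]
    by_contra hc
    push Not at hc
    have h2 := hc.1 hN
    have h3 := hc.2 hN
    have h4 := hcount N hN'.1 hN'.2
    have h5 : (almostPrimes 1 3 ((X : ℝ) ^ z) N H : ℝ) ≤
      (((Ioc N (N + H)).filter (Good w k α β s t X)).card : ℝ) +
        (((Ioc N (N + H)).filter (fun a => a ∈ S)).card : ℝ) := by exact_mod_cast h4
    have h6 : δ * (X : ℝ) ^ h / L = δ / 2 * (X : ℝ) ^ h / L + δ / 2 * (X : ℝ) ^ h / L := by ring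
    linarith
  have hfin : (((Icc 1 X).filter (fun N : ℕ =>
      (((Ioc N (N + H)).filter (Good w k α β s t X)).card : ℝ) < δ / 2 * (X : ℝ) ^ h / L)).card : ℝ) ≤
      (E1.card : ℝ) + E2.card := by
    exact_mod_cast (card_le_card hsub).trans (card_union_le _ _)
  have hE1c : (E1.card : ℝ) ≤ ε / 2 * X := g1.trans g4
  linarith

theorem short (h : ℝ) (hh : 9 / 20 < h) (h1 : h ≤ 1) : ∃ δ : ℝ, 0 < δ ∧ ∀ ε : ℝ, 0 < ε →
    ∃ c : ℝ, 0 < c ∧ ∀ (k : ℕ) (α β s t : Fin k → ℝ),
      (∀ i, -1 ≤ α i ∧ α i < β i ∧ β i ≤ 1 ∧ s i < t i) →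
      ∑ i, (β i - α i) * (t i - s i) ≤ c → ∀ᶠ X : ℕ in atTop,
        (((Icc 1 X).filter (fun N : ℕ =>
          (((Ioc N (N + ⌊(X : ℝ) ^ h⌋₊)).filter (Good (9 / 50) k α β s t X)).card : ℝ) <
            δ * (X : ℝ) ^ h / Real.log X)).card : ℝ) ≤ ε * X := by
  obtain ⟨δ, hδ, hP⟩ := Pool.Agent.Results.MP_7169d5_nt.ShortIntervalsFewExceptions.result 1
    (by
      rintro ⟨r, hr⟩
      nlinarith [mul_self_nonneg r]) 3 (29 / 40) (29 / 160)
    (Or.inr (Or.inr ⟨rfl, le_rfl, by norm_num⟩)) (by norm_num) h ((h - 9 / 20) / 2) (by linarith) h1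
    (by linarith)
  exact short_gen h (9 / 50) (29 / 160) _ δ h1 (by norm_num) (by norm_num) (by linarith) hδ hP

end Pool.Agent.H578.Sec
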