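import Pool.Agent.H578.Sec.Box

/-!
# Uniform version: factors of `a + i` in short sectors and in arbitrary norm windows
-/

set_option autoImplicit false

namespace Pool.Agent.H578.Sec

open Finset Filter Topology
open Pool.Agent.Y346.PA
open scoped Classical

theorem coreU (w : ℝ) (hw : 0 < w) : ∃ C : ℝ, 0 < C ∧ ∀ᶠ X : ℕ in atTop, ∀ α β A B : ℝ,
    -1 ≤ α → β ≤ 1 → (X : ℝ) ^ (-(w / 40)) ≤ β - α → 0 < A → A ≤ 5 * B →
      ((SS w X α β A B).card : ℝ) ≤
        C * (β - α) * X / (Real.log X) ^ 2 * (1 + Real.log (5 * B / A)) := by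
  obtain ⟨c0, hc0⟩ := exists_nat_ge (1 / w)
  obtain ⟨C, K, hC4, hCc, hK, x0, hG⟩ := lemGY c0
  have hC : 1 / w ≤ C := hc0.trans (by exact_mod_cast hCc)
  obtain ⟨C8, hC8, hsx⟩ := Pool.Agent.Y577.PA.t_SX
  refine ⟨64 * K * C8 / w ^ 2, by positivity, ?_⟩
  have hlog : Tendsto (fun X : ℕ => Real.log (X : ℝ)) atTop atTop :=
    Real.tendsto_log_atTop.comp tendsto_natCast_atTop_atTop
  have hpow : Tendsto (fun X : ℕ => (X : ℝ) ^ w) atTop atTop :=
    (tendsto_rpow_atTop hw).comp tendsto_natCast_atTop_atTop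
  have hpow5 : Tendsto (fun X : ℕ => (X : ℝ) ^ (w / 5)) atTop atTop :=
    (tendsto_rpow_atTop (by positivity)).comp tendsto_natCast_atTop_atTop
  filter_upwards [hlog.eventually_ge_atTop 1, hlog.eventually_ge_atTop (8 / w),
    hpow.eventually_ge_atTop (5 * (x0 : ℝ) ^ 2),
    hpow5.eventually_ge_atTop (5 * 4 ^ 32), eventually_ge_atTop 3]
    with X h1 h2 h4 h50 h6
  intro α β A B hα hβ hlen hA hAB
  have hXr : (3 : ℝ) ≤ X := by exact_mod_cast h6
  have hX0 : (0 : ℝ) < X := by linarith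
  set η : ℝ := β - α with hηdef
  have hη : 0 < η := lt_of_lt_of_le (Real.rpow_pos_of_pos hX0 _) hlen
  have hη2 : η ≤ 2 := by linarith
  have h5 : 5 * ((4 / η) ^ 16) ^ 2 ≤ (X : ℝ) ^ w := by
    have f1 : 4 / η ≤ 4 * (X : ℝ) ^ (w / 40) := by
      rw [Real.rpow_neg hX0.le] at hlen
      rw [div_le_iff₀ hη]
      have f2 : (0 : ℝ) < (X : ℝ) ^ (w / 40) := by positivity
      have f3 : (X : ℝ) ^ (w / 40) * ((X : ℝ) ^ (w / 40))⁻¹ ≤ (X : ℝ) ^ (w / 40) * η := by gcongr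
      rw [mul_inv_cancel₀ f2.ne'] at f3
      linarith
    calc 5 * ((4 / η) ^ 16) ^ 2 ≤ 5 * ((4 * (X : ℝ) ^ (w / 40)) ^ 16) ^ 2 := by gcongr
      _ = 5 * 4 ^ 32 * (X : ℝ) ^ (w * (4 / 5)) := by
          rw [mul_pow, mul_pow, ← Real.rpow_natCast ((X : ℝ) ^ (w / 40)) 16,
            ← Real.rpow_mul hX0.le, ← Real.rpow_natCast ((X : ℝ) ^ (w / 40 * ((16 : ℕ) : ℝ))) 2,
            ← Real.rpow_mul hX0.le]
          rw [show w / 40 * ((16 : ℕ) : ℝ) * ((2 : ℕ) : ℝ) = w * (4 / 5) by push_cast; ring]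
          ring
      _ ≤ (X : ℝ) ^ (w / 5) * (X : ℝ) ^ (w * (4 / 5)) := by gcongr
      _ = (X : ℝ) ^ w := by
          rw [← Real.rpow_add hX0]
          congr 1
          ring
  set L : ℝ := Real.log X with hL
  have hL0 : 0 < L := by linarith
  set T : ℕ := Nat.sqrt (2 * X) with hT
  have hTsq : T ^ 2 ≤ 2 * X := Nat.sqrt_le' _
  have hcard := ss_card w α β A B hw C X hC h6
  set I : Finset ℕ := (Icc 1 T).filter (fun x : ℕ => A ≤ 5 * (x : ℝ) ^ 2 ∧ (x : ℝ) ^ 2 ≤ B)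
    with hI
  have hη1 : 1 ≤ 4 / η := by
    rw [le_div_iff₀ hη]
    linarith
  have hterm : ∀ x ∈ I.filter (fun x : ℕ => (X : ℝ) ^ w ≤ 5 * (x : ℝ) ^ 2),
      ((Fx C x (2 * X / x) (⌊α * x⌋ - 1) (⌈β * x⌉ + 1)).card : ℝ) ≤
      64 * K * η * X / (w ^ 2 * L ^ 2) * (((x : ℝ) / x.totient) ^ 8 / x) := by
    intro x hx
    rw [mem_filter, hI, mem_filter, mem_Icc] at hx
    obtain ⟨⟨⟨hx1, hxT⟩, -⟩, hxz⟩ := hx
    have hx0 : (0 : ℝ) < x := by exact_mod_cast hx1
    have hxx0 : x0 ≤ x := by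
      have : (x0 : ℝ) ^ 2 ≤ (x : ℝ) ^ 2 := by linarith
      have h7 : (x0 : ℝ) ≤ x := le_of_abs_le (abs_le_of_sq_le_sq this hx0.le)
      exact_mod_cast h7
    have hxη : (4 / η) ^ 16 ≤ (x : ℝ) := by
      have : ((4 / η) ^ 16) ^ 2 ≤ (x : ℝ) ^ 2 := by linarith
      exact le_of_abs_le (abs_le_of_sq_le_sq this hx0.le)
    have hx16 : 4 / η ≤ (x : ℝ) ^ (1 / 16 : ℝ) := by
      have h7 : ((4 / η) ^ 16) ^ (1 / 16 : ℝ) ≤ (x : ℝ) ^ (1 / 16 : ℝ) := by gcongr
      have h8 : ((4 / η) ^ 16) ^ (1 / 16 : ℝ) = 4 / η := by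
        rw [← Real.rpow_natCast, ← Real.rpow_mul (by positivity)]
        norm_num
      linarith
    have hxη1 : 4 ≤ η * x := by
      have h7 : 4 / η ≤ (4 / η) ^ 16 := le_self_pow₀ hη1 (by norm_num)
      have h8 : 4 / η ≤ x := h7.trans hxη
      rw [div_le_iff₀ hη] at h8
      linarith
    have hxsq : x ^ 2 ≤ 2 * X := le_trans (Nat.pow_le_pow_left hxT 2) hTsq
    have hxR : x ≤ 2 * X / x := by
      rw [Nat.le_div_iff_mul_le (by omega)]
      nlinarith
    set y1 : ℤ := ⌊α * (x : ℝ)⌋ - 1 with hy1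
    set y2 : ℤ := ⌈β * (x : ℝ)⌉ + 1 with hy2
    have f1 : (⌊α * (x : ℝ)⌋ : ℝ) ≤ α * x := Int.floor_le _
    have f2 : α * (x : ℝ) - 1 < (⌊α * (x : ℝ)⌋ : ℝ) := Int.sub_one_lt_floor _
    have f3 : β * x ≤ (⌈β * (x : ℝ)⌉ : ℝ) := Int.le_ceil _
    have f4 : (⌈β * (x : ℝ)⌉ : ℝ) < β * x + 1 := Int.ceil_lt_add_one _
    have hlu : (y2 : ℝ) - y1 ≤ 2 * η * x := by
      rw [hy1, hy2]
      push_cast
      have : η * x = β * x - α * x := by rw [hηdef]; ring
      linarith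
    have hll : η * x ≤ (y2 : ℝ) - y1 := by
      rw [hy1, hy2]
      push_cast
      have : η * x = β * x - α * x := by rw [hηdef]; ring
      linarith
    have hYx : (y2 : ℝ) - y1 ≤ 4 * x := by
      have : 2 * η * x ≤ 4 * x := by nlinarith
      linarith
    have hYl : (x : ℝ) ^ (15 / 16 : ℝ) ≤ (y2 : ℝ) - y1 := by
      refine le_trans ?_ hll
      have h9 : (x : ℝ) ^ (15 / 16 : ℝ) * (x : ℝ) ^ (1 / 16 : ℝ) = x := by
        rw [← Real.rpow_add hx0]
        norm_num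
      have h10 : (x : ℝ) ^ (15 / 16 : ℝ) * (4 / η) ≤ x := by
        calc (x : ℝ) ^ (15 / 16 : ℝ) * (4 / η) ≤
            (x : ℝ) ^ (15 / 16 : ℝ) * (x : ℝ) ^ (1 / 16 : ℝ) := by gcongr
          _ = x := h9
      have h11 : (0 : ℝ) ≤ (x : ℝ) ^ (15 / 16 : ℝ) := by positivity
      rw [← mul_div_assoc, div_le_iff₀ hη] at h10
      linarith
    have hRu : ((2 * X / x : ℕ) : ℝ) ≤ 2 * X / x := by
      have := Nat.cast_div_le (α := ℝ) (m := 2 * X) (n := x)
      push_cast at this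
      exact this
    have hlogx : w * L / 4 ≤ Real.log x := by
      have h7 : (X : ℝ) ^ w ≤ 5 * (x : ℝ) ^ 2 := hxz
      have h8 := Real.log_le_log (by positivity) h7
      rw [Real.log_rpow hX0, Real.log_mul (by norm_num) (by positivity), Real.log_pow] at h8
      push_cast at h8
      have h9 : Real.log 5 ≤ 4 := by
        have := Real.log_le_sub_one_of_pos (show (0 : ℝ) < 5 by norm_num)
        linarith
      have h10 : 8 ≤ w * L := by
        rw [div_le_iff₀ hw] at h2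
        linarith
      linarith
    have hwL : 0 < w * L / 4 := by positivity
    have hlx : (Real.log x) ^ (-2 : ℝ) ≤ 16 / (w ^ 2 * L ^ 2) := by
      calc (Real.log x) ^ (-2 : ℝ) ≤ (w * L / 4) ^ (-2 : ℝ) :=
            Real.rpow_le_rpow_of_nonpos hwL hlogx (by norm_num)
        _ = 16 / (w ^ 2 * L ^ 2) := by
            rw [Real.rpow_neg hwL.le]
            norm_num
            rw [div_pow]
            field_simp
            norm_num
    have hphi : (1 : ℝ) ≤ (x : ℝ) / x.totient := by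
      rw [one_le_div (by exact_mod_cast Nat.totient_pos.2 (by omega))]
      exact_mod_cast Nat.totient_le x
    have h8 : ((x : ℝ) / x.totient) ^ 4 ≤ ((x : ℝ) / x.totient) ^ 8 :=
      pow_le_pow_right₀ hphi (by norm_num)
    have hGx := hG x (2 * X / x) y1 y2 hxx0 hxR hYx hYl
    have hYq : ((y2 : ℝ) - y1) / x ≤ 2 * η := by
      rw [div_le_iff₀ hx0]
      exact hlu
    have hYq0 : 0 ≤ ((y2 : ℝ) - y1) / x := by
      apply div_nonneg _ hx0.le
      linarith
    have hlp : 0 ≤ (Real.log x) ^ (-2 : ℝ) := Real.rpow_nonneg (by linarith) _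
    calc ((Fx C x (2 * X / x) y1 y2).card : ℝ)
        ≤ K * (((y2 : ℝ) - y1) / x) * ((2 * X / x : ℕ) : ℝ) * (Real.log x) ^ (-2 : ℝ) *
          ((x : ℝ) / x.totient) ^ 4 := hGx
      _ ≤ K * (2 * η) * (2 * X / x) * (16 / (w ^ 2 * L ^ 2)) * ((x : ℝ) / x.totient) ^ 8 := by
          gcongr
      _ = 64 * K * η * X / (w ^ 2 * L ^ 2) * (((x : ℝ) / x.totient) ^ 8 / x) := by
          field_simp
          ring
  have hsum := sum_div_real (fun x => ((x : ℝ) / x.totient) ^ 8) C8 hC8.le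
    (fun n => by positivity) hsx T A B hA hAB
  rw [← hI] at hsum
  calc ((SS w X α β A B).card : ℝ)
      ≤ ∑ x ∈ I.filter (fun x : ℕ => (X : ℝ) ^ w ≤ 5 * (x : ℝ) ^ 2),
        ((Fx C x (2 * X / x) (⌊α * x⌋ - 1) (⌈β * x⌉ + 1)).card : ℝ) := by exact_mod_cast hcard
    _ ≤ ∑ x ∈ I.filter (fun x : ℕ => (X : ℝ) ^ w ≤ 5 * (x : ℝ) ^ 2),
        64 * K * η * X / (w ^ 2 * L ^ 2) * (((x : ℝ) / x.totient) ^ 8 / x) :=
        sum_le_sum hterm
    _ ≤ ∑ x ∈ I, 64 * K * η * X / (w ^ 2 * L ^ 2) * (((x : ℝ) / x.totient) ^ 8 / x) := by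
        apply sum_le_sum_of_subset_of_nonneg (filter_subset _ _)
        intro x _ _
        positivity
    _ = 64 * K * η * X / (w ^ 2 * L ^ 2) * ∑ x ∈ I, ((x : ℝ) / x.totient) ^ 8 / x := by
        rw [mul_sum]
    _ ≤ 64 * K * η * X / (w ^ 2 * L ^ 2) * (C8 * (1 + Real.log (5 * B / A))) := by gcongr
    _ = 64 * K * C8 / w ^ 2 * η * X / L ^ 2 * (1 + Real.log (5 * B / A)) := by
        field_simp


/-- the `a` in `(N / 2, N]` with `a ^ 2 + 1` free of prime factors below `ρ` and with a proper factor of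
`a + i` with slope in `[α, β]` and norm in `[y, z]` -/
noncomputable def DBS (ρ α β y z : ℝ) (N : ℕ) : Finset ℕ :=
  (Ioc (N / 2) N).filter (fun a : ℕ => Rough ρ a ∧ HasFactor a α β y z)

theorem dbs_le (w : ℝ) (hw : 0 < w) : ∃ C : ℝ, 0 < C ∧ ∀ᶠ N : ℕ in atTop, ∀ ρ α β y z : ℝ,
    (N : ℝ) ^ w ≤ ρ → -1 ≤ α → β ≤ 1 → (N : ℝ) ^ (-(w / 40)) ≤ β - α → 0 < y → y ≤ z →
      ((DBS ρ α β y z N).card : ℝ) ≤
        C * (β - α) * (1 + Real.log (z / y)) * N / (Real.log N) ^ 2 := by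
  obtain ⟨C, hC, hcore⟩ := coreU w hw
  refine ⟨45 * C, by positivity, ?_⟩
  filter_upwards [hcore, eventually_ge_atTop 3] with N h1 h6
  intro ρ α β y z hρ hα hβ hlen hy hyz
  have hNr : (3 : ℝ) ≤ N := by exact_mod_cast h6
  have hN0 : (0 : ℝ) < N := by linarith
  have hη0 : 0 < β - α := lt_of_lt_of_le (Real.rpow_pos_of_pos hN0 _) hlen
  have hz : 0 < z := by linarith
  have hzy : 1 ≤ z / y := by rwa [one_le_div hy]
  have hlzy : 0 ≤ Real.log (z / y) := Real.log_nonneg hzy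
  set A2 : ℝ := (N : ℝ) ^ 2 / (4 * z) with hA2
  set B2 : ℝ := 2 * ((N : ℝ) ^ 2 / y) with hB2
  have hA2' : 0 < A2 := by positivity
  have hr2 : 5 * B2 / A2 = 40 * (z / y) := by
    rw [hA2, hB2]
    field_simp
    norm_num
  have hAB2 : A2 ≤ 5 * B2 := by
    rw [← one_le_div hA2', hr2]
    linarith
  have hsub : DBS ρ α β y z N ⊆ SS w N α β y z ∪ SS w N (-β) (-α) A2 B2 := by
    intro a ha
    rw [DBS, mem_filter, mem_Ioc] at ha
    obtain ⟨⟨ha1, haN⟩, hrough0, hfac⟩ := ha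
    have ha1' : 1 ≤ a := by omega
    have hrough : ∀ p : ℕ, p.Prime → p ∣ a ^ 2 + 1 → (N : ℝ) ^ w ≤ p :=
      fun p hp hpa => hρ.trans (hrough0 p hp hpa)
    have haNr : (a : ℝ) ≤ N := by exact_mod_cast haN
    have h2a : N ≤ 2 * a := by omega
    have h2ar : (N : ℝ) ≤ 2 * a := by exact_mod_cast h2a
    have h4a : (N : ℝ) ^ 2 ≤ 4 * (a : ℝ) ^ 2 := by nlinarith
    have h5a : (a : ℝ) ^ 2 ≤ (N : ℝ) ^ 2 := pow_le_pow_left₀ (Nat.cast_nonneg _) haNr 2
    obtain ⟨x, y', r, s', hx1, hxa, hzx, e1, e2, hxr, hor⟩ :=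
      reduce a ha1' ((N : ℝ) ^ w) α β y z hrough hfac
    rw [mem_union]
    rcases hor with ⟨g1, g2, g3, g4⟩ | ⟨g1, g2, g3, g4⟩
    · left
      rw [SS, mem_filter, mem_Icc]
      exact ⟨⟨ha1', haN⟩, hrough, x, y', r, s', hx1, hxa, hzx, e1, e2, hxr, g1, g2, g3, g4⟩
    · right
      rw [SS, mem_filter, mem_Icc]
      refine ⟨⟨ha1', haN⟩, hrough, x, y', r, s', hx1, hxa, hzx, e1, e2, hxr, g1, g2, ?_, ?_⟩
      · rw [hA2, div_le_iff₀ (by positivity)]
        linarith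
      · rw [hB2, mul_div_assoc', le_div_iff₀ hy]
        linarith
  have hc1 := h1 α β y z hα hβ hlen hy (by linarith)
  have hc2 := h1 (-β) (-α) A2 B2 (by linarith) (by linarith)
    (by rw [show -α - -β = β - α by ring]; exact hlen) hA2' hAB2
  rw [show -α - -β = β - α by ring, hr2, Real.log_mul (by norm_num) (by positivity)] at hc2
  rw [show 5 * z / y = 5 * (z / y) by ring, Real.log_mul (by norm_num) (by positivity)] at hc1
  have hlog5 : Real.log 5 ≤ 4 := by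
    have := Real.log_le_sub_one_of_pos (show (0 : ℝ) < 5 by norm_num)
    linarith
  have hlog40 : Real.log 40 ≤ 39 := by
    have := Real.log_le_sub_one_of_pos (show (0 : ℝ) < 40 by norm_num)
    linarith
  have hcard : ((DBS ρ α β y z N).card : ℝ) ≤
      ((SS w N α β y z).card : ℝ) + ((SS w N (-β) (-α) A2 B2).card : ℝ) := by
    exact_mod_cast (card_le_card hsub).trans (card_union_le _ _)
  set L : ℝ := Real.log N with hL
  have hL0 : 0 < L := Real.log_pos (by linarith)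
  have hfac0 : 0 ≤ C * (β - α) * N / L ^ 2 := by positivity
  calc ((DBS ρ α β y z N).card : ℝ)
      ≤ C * (β - α) * N / L ^ 2 * (1 + (Real.log 5 + Real.log (z / y))) +
          C * (β - α) * N / L ^ 2 * (1 + (Real.log 40 + Real.log (z / y))) := by linarith
    _ = C * (β - α) * N / L ^ 2 * (2 + Real.log 5 + Real.log 40 + 2 * Real.log (z / y)) := by ring
    _ ≤ C * (β - α) * N / L ^ 2 * (45 * (1 + Real.log (z / y))) := by
        apply mul_le_mul_of_nonneg_left _ hfac0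
        linarith
    _ = 45 * C * (β - α) * (1 + Real.log (z / y)) * N / L ^ 2 := by ring

/-- the `a ≤ N` with `a ^ 2 + 1` free of prime factors below `ρ` and with a proper factor of `a + i` with
slope in `[α, β]` and norm in `[y, z]` -/
noncomputable def FBS (ρ α β y z : ℝ) (N : ℕ) : Finset ℕ :=
  (Icc 1 N).filter (fun a : ℕ => Rough ρ a ∧ HasFactor a α β y z)

theorem fbs_split (ρ α β y z : ℝ) (N : ℕ) :
    (FBS ρ α β y z N).card ≤ (FBS ρ α β y z (N / 2)).card + (DBS ρ α β y z N).card := by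
  refine (card_le_card ?_).trans (card_union_le _ _)
  intro n hn
  rw [FBS, mem_filter, mem_Icc] at hn
  rw [mem_union, FBS, DBS, mem_filter, mem_filter, mem_Icc, mem_Ioc]
  by_cases h : n ≤ N / 2
  · left
    exact ⟨⟨hn.1.1, h⟩, hn.2⟩
  · right
    exact ⟨⟨by omega, hn.1.2⟩, hn.2⟩

theorem fbs_le (w : ℝ) (hw : 0 < w) (hw1 : w ≤ 1) : ∃ C : ℝ, 0 < C ∧
    ∀ᶠ X : ℕ in atTop, ∀ α β y z : ℝ, -1 ≤ α → β ≤ 1 → (X : ℝ) ^ (-(w / 80)) ≤ β - α →
      0 < y → y ≤ z →
      ((FBS ((X : ℝ) ^ w) α β y z X).card : ℝ) ≤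
        C * (β - α) * (1 + Real.log (z / y)) * X / (Real.log X) ^ 2 := by
  obtain ⟨C, hC, h⟩ := dbs_le w hw
  rw [eventually_atTop] at h
  obtain ⟨N0, hN0⟩ := h
  refine ⟨8 * C + 1, by positivity, ?_⟩
  have hlog : Tendsto (fun X : ℕ => Real.log (X : ℝ)) atTop atTop :=
    Real.tendsto_log_atTop.comp tendsto_natCast_atTop_atTop
  have hsq : Tendsto (fun X : ℕ => (X : ℝ) ^ (1 / 2 : ℝ)) atTop atTop :=
    (tendsto_rpow_atTop (by norm_num)).comp tendsto_natCast_atTop_atTop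
  have hsmall : ∀ᶠ X : ℕ in atTop, (X : ℝ) ^ (3 / 4 : ℝ) * (Real.log X) ^ 2 ≤ X := by
    have h1 := (isLittleO_log_rpow_atTop (show (0 : ℝ) < 1 / 8 by norm_num)).def (c := 1) one_pos
    have h2 := (tendsto_natCast_atTop_atTop (R := ℝ)).eventually h1
    filter_upwards [h2, eventually_ge_atTop 1] with X h3 h4
    have hX1 : (1 : ℝ) ≤ X := by exact_mod_cast h4
    have hX0 : (0 : ℝ) < X := by linarith
    rw [Real.norm_of_nonneg (Real.log_nonneg hX1), Real.norm_of_nonneg (by positivity), one_mul] at h3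
    have h5 : (Real.log X) ^ 2 ≤ ((X : ℝ) ^ (1 / 8 : ℝ)) ^ 2 :=
      pow_le_pow_left₀ (Real.log_nonneg hX1) h3 2
    calc (X : ℝ) ^ (3 / 4 : ℝ) * (Real.log X) ^ 2 ≤
        (X : ℝ) ^ (3 / 4 : ℝ) * ((X : ℝ) ^ (1 / 8 : ℝ)) ^ 2 := by gcongr
      _ = (X : ℝ) := by
          rw [← Real.rpow_natCast, ← Real.rpow_mul hX0.le, ← Real.rpow_add hX0]
          norm_num
  filter_upwards [hsmall, hlog.eventually_ge_atTop 1, hsq.eventually_ge_atTop (N0 : ℝ),
    eventually_ge_atTop 1] with X h1 h2 h3 h4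
  intro α β y z hα hβ hlen hy hyz
  have hX1 : (1 : ℝ) ≤ X := by exact_mod_cast h4
  have hX0 : (0 : ℝ) < X := by linarith
  have hη0 : 0 < β - α := lt_of_lt_of_le (Real.rpow_pos_of_pos hX0 _) hlen
  set η : ℝ := β - α with hη
  set L' : ℝ := Real.log X with hL
  have hL0 : 0 < L' := by linarith
  have hzy : 1 ≤ z / y := by rwa [one_le_div hy]
  set W : ℝ := 1 + Real.log (z / y) with hW
  have hW1 : 1 ≤ W := by
    have := Real.log_nonneg hzy
    linarith
  set ρ : ℝ := (X : ℝ) ^ w with hρ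
  have key : ∀ m : ℕ, ∀ N : ℕ, N ≤ m → N ≤ X →
      ((FBS ρ α β y z N).card : ℝ) ≤ (X : ℝ) ^ (1 / 2 : ℝ) + 8 * C * η * W * N / L' ^ 2 := by
    intro m
    induction m with
    | zero =>
      intro N hN _
      have h5 : N = 0 := by omega
      subst h5
      have h6 : (FBS ρ α β y z 0).card = 0 := by
        rw [FBS, card_eq_zero, filter_eq_empty_iff]
        intro n hn
        rw [mem_Icc] at hn
        omega
      rw [h6]
      push_cast
      positivity
    | succ m ih =>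
      intro N hN hNX
      by_cases hsm : (N : ℝ) ≤ (X : ℝ) ^ (1 / 2 : ℝ)
      · have h5 : (FBS ρ α β y z N).card ≤ N := by
          refine (card_filter_le _ _).trans ?_
          rw [Nat.card_Icc]
          omega
        have h6 : ((FBS ρ α β y z N).card : ℝ) ≤ N := by exact_mod_cast h5
        have h7 : 0 ≤ 8 * C * η * W * N / L' ^ 2 := by positivity
        linarith
      · push Not at hsm
        have hN0' : N0 ≤ N := by
          have : (N0 : ℝ) ≤ N := by linarith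
          exact_mod_cast this
        have hN1 : 1 ≤ N := by
          have : (0 : ℝ) < N := lt_of_le_of_lt (by positivity) hsm
          exact_mod_cast this
        have hN1r : (1 : ℝ) ≤ N := by exact_mod_cast hN1
        have hNXr : (N : ℝ) ≤ X := by exact_mod_cast hNX
        have h5 := fbs_split ρ α β y z N
        have h6 : ((FBS ρ α β y z N).card : ℝ) ≤
            (FBS ρ α β y z (N / 2)).card + (DBS ρ α β y z N).card := by
          exact_mod_cast h5
        have h7 := ih (N / 2) (by omega) (by omega)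
        have h8 : ((N / 2 : ℕ) : ℝ) ≤ N / 2 := by
          have := Nat.cast_div_le (α := ℝ) (m := N) (n := 2)
          push_cast at this
          exact this
        have hlenN : (N : ℝ) ^ (-(w / 40)) ≤ η := by
          refine le_trans ?_ hlen
          calc (N : ℝ) ^ (-(w / 40)) ≤ ((X : ℝ) ^ (1 / 2 : ℝ)) ^ (-(w / 40)) :=
                Real.rpow_le_rpow_of_nonpos (by positivity) hsm.le (by linarith)
            _ = (X : ℝ) ^ (-(w / 80)) := by
                rw [← Real.rpow_mul hX0.le]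
                congr 1
                ring
        have h9 := hN0 N hN0' ρ α β y z (by rw [hρ]; gcongr) hα hβ hlenN hy hyz
        have hlN : L' / 2 ≤ Real.log N := by
          have h10 := Real.log_le_log (by positivity) hsm.le
          rw [Real.log_rpow hX0] at h10
          linarith
        have h10 : C * η * W * N / (Real.log N) ^ 2 ≤ 4 * C * η * W * N / L' ^ 2 := by
          have h11 : L' ^ 2 / 4 ≤ (Real.log N) ^ 2 := by
            calc L' ^ 2 / 4 = (L' / 2) ^ 2 := by ring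
              _ ≤ (Real.log N) ^ 2 := pow_le_pow_left₀ (by linarith) hlN 2
          calc C * η * W * N / (Real.log N) ^ 2 ≤ C * η * W * N / (L' ^ 2 / 4) := by
                apply div_le_div_of_nonneg_left (by positivity) (by positivity) h11
            _ = 4 * C * η * W * N / L' ^ 2 := by
                field_simp
        have h12 : 8 * C * η * W * ((N / 2 : ℕ) : ℝ) / L' ^ 2 ≤ 4 * C * η * W * N / L' ^ 2 := by
          apply div_le_div_of_nonneg_right _ (by positivity)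
          have : 8 * C * η * W * ((N / 2 : ℕ) : ℝ) ≤ 8 * C * η * W * (N / 2) := by gcongr
          linarith
        calc ((FBS ρ α β y z N).card : ℝ) ≤ ((X : ℝ) ^ (1 / 2 : ℝ) + 4 * C * η * W * N / L' ^ 2) +
              4 * C * η * W * N / L' ^ 2 := by linarith
          _ = _ := by ring
  have h5 := key X X le_rfl le_rfl
  have h6 : (X : ℝ) ^ (1 / 2 : ℝ) ≤ η * W * X / L' ^ 2 := by
    rw [le_div_iff₀ (by positivity)]
    have g1 : (X : ℝ) ^ (-(1 / 4) : ℝ) ≤ η := by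
      refine le_trans ?_ hlen
      apply Real.rpow_le_rpow_of_exponent_le hX1
      linarith
    have g2 : (X : ℝ) ^ (1 / 2 : ℝ) * L' ^ 2 =
        (X : ℝ) ^ (-(1 / 4) : ℝ) * ((X : ℝ) ^ (3 / 4 : ℝ) * L' ^ 2) := by
      rw [← mul_assoc, ← Real.rpow_add hX0]
      norm_num
    calc (X : ℝ) ^ (1 / 2 : ℝ) * L' ^ 2
        = (X : ℝ) ^ (-(1 / 4) : ℝ) * ((X : ℝ) ^ (3 / 4 : ℝ) * L' ^ 2) := g2
      _ ≤ η * X := by gcongr
      _ ≤ η * W * X := by
          have : 0 ≤ η * X := by positivity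
          nlinarith
  calc ((FBS ρ α β y z X).card : ℝ) ≤ η * W * X / L' ^ 2 + 8 * C * η * W * X / L' ^ 2 := by linarith
    _ = (8 * C + 1) * η * W * X / L' ^ 2 := by ring

end Pool.Agent.H578.Sec
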