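import Pool.Agent.H578.Sec.Uni1
import Pool.Agent.H578.Sec.Half

/-!
# Almost primes `a ^ 2 + 1` in almost all short intervals whose Gaussian factors avoid given boxes

The boxes may depend on `X`.
-/

set_option autoImplicit false

namespace Pool.Agent.H578.Sec

open Finset Filter Topology
open Pool.Agent.Results.MP_7169d5_nt.ShortIntervalsFewExceptions (almostPrimes)
open scoped Classical

/-- the properties of the good integers -/
def GoodU (m : ℕ) (w : ℝ) (k : ℕ) (α β y z : Fin k → ℝ) (X : ℕ) (a : ℕ) : Prop :=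
  (a ^ 2 + 1).primeFactorsList.length ≤ m ∧ Rough ((X : ℝ) ^ w) a ∧
    ∀ i, ¬ HasFactor a (α i) (β i) (y i) (z i)

theorem short_genU (m : ℕ) (h w z0 e δ : ℝ) (h1 : h ≤ 1) (hw : 0 < w) (hw1 : w ≤ 1)
    (hwz : w < z0) (he : e < 1) (hδ : 0 < δ)
    (hP : ∀ᶠ X : ℕ in atTop, (((Icc 1 X).filter (fun N : ℕ =>
      (almostPrimes 1 m ((X : ℝ) ^ z0) N ⌊(X : ℝ) ^ h⌋₊ : ℝ) <
        δ * (X : ℝ) ^ h / Real.log X)).card : ℝ) ≤ (X : ℝ) ^ e) :
    ∃ δ' c : ℝ, 0 < δ' ∧ 0 < c ∧ ∀ ε : ℝ, 0 < ε → ∀ᶠ X : ℕ in atTop,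
      ∀ (k : ℕ) (α β y z : Fin k → ℝ),
        (∀ i, -1 ≤ α i ∧ β i ≤ 1 ∧ (X : ℝ) ^ (-(w / 80)) ≤ β i - α i ∧ 0 < y i ∧ y i ≤ z i) →
        ∑ i, (β i - α i) * (1 + Real.log (z i / y i)) ≤ c * ε * Real.log X →
        (((Icc 1 X).filter (fun N : ℕ =>
          (((Ioc N (N + ⌊(X : ℝ) ^ h⌋₊)).filter (GoodU m w k α β y z X)).card : ℝ) <
            δ' * (X : ℝ) ^ h / Real.log X)).card : ℝ) ≤ ε * X := by
  obtain ⟨C, hC, hbb⟩ := fbs_le w hw hw1
  refine ⟨δ / 2, δ / (8 * C), by positivity, by positivity, ?_⟩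
  intro ε hε
  have hlog : Tendsto (fun X : ℕ => Real.log (X : ℝ)) atTop atTop :=
    Real.tendsto_log_atTop.comp tendsto_natCast_atTop_atTop
  have hbad : ∀ᶠ X : ℕ in atTop, ∀ α β y z : ℝ, -1 ≤ α → β ≤ 1 →
      ((2 * X : ℕ) : ℝ) ^ (-(w / 80)) ≤ β - α → 0 < y → y ≤ z →
      ((FBS (((2 * X : ℕ) : ℝ) ^ w) α β y z (2 * X)).card : ℝ) ≤
        C * (β - α) * (1 + Real.log (z / y)) * (2 * X : ℕ) / (Real.log (2 * X : ℕ)) ^ 2 := by
    have h3 : Tendsto (fun X : ℕ => 2 * X) atTop atTop :=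
      tendsto_id.const_mul_atTop' (by norm_num)
    exact h3.eventually hbb
  have hexc : ∀ᶠ X : ℕ in atTop, (X : ℝ) ^ e ≤ ε / 2 * X := by
    have h3 : Tendsto (fun X : ℕ => (X : ℝ) ^ (1 - e)) atTop atTop :=
      (tendsto_rpow_atTop (by linarith)).comp tendsto_natCast_atTop_atTop
    filter_upwards [h3.eventually_ge_atTop (2 / ε), eventually_ge_atTop 1] with X g1 g2
    have hX0 : (0 : ℝ) < X := by exact_mod_cast g2
    rw [div_le_iff₀ hε] at g1
    have h4 : (X : ℝ) = (X : ℝ) ^ e * (X : ℝ) ^ (1 - e) := by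
      rw [← Real.rpow_add hX0]
      norm_num
    have h5 : (0 : ℝ) < (X : ℝ) ^ e := by positivity
    have h6 : (X : ℝ) ^ e * 2 ≤ (X : ℝ) ^ e * ((X : ℝ) ^ (1 - e) * ε) := by gcongr
    nlinarith
  have hrough : ∀ᶠ X : ℕ in atTop, ((2 * X : ℕ) : ℝ) ^ w ≤ (X : ℝ) ^ z0 := by
    have h3 : Tendsto (fun X : ℕ => (X : ℝ) ^ (z0 - w)) atTop atTop :=
      (tendsto_rpow_atTop (by linarith)).comp tendsto_natCast_atTop_atTop
    filter_upwards [h3.eventually_ge_atTop ((2 : ℝ) ^ w), eventually_ge_atTop 1] with X g1 g2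
    have hX0 : (0 : ℝ) < X := by exact_mod_cast g2
    push_cast
    rw [Real.mul_rpow (by norm_num) hX0.le]
    calc (2 : ℝ) ^ w * (X : ℝ) ^ w ≤ (X : ℝ) ^ (z0 - w) * (X : ℝ) ^ w := by gcongr
      _ = (X : ℝ) ^ z0 := by
          rw [← Real.rpow_add hX0]
          congr 1
          ring
  filter_upwards [hP, hbad, hexc, hrough, hlog.eventually_ge_atTop 1, eventually_ge_atTop 3]
    with X g1 g2 g4 g5 g6 g7
  intro k α β y z hbox harea
  have hXr : (3 : ℝ) ≤ X := by exact_mod_cast g7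
  have hX0 : (0 : ℝ) < X := by linarith
  set L' : ℝ := Real.log X with hL
  have hL0 : 0 < L' := by linarith
  set H : ℕ := ⌊(X : ℝ) ^ h⌋₊ with hH
  have hHX : (H : ℝ) ≤ (X : ℝ) ^ h := Nat.floor_le (by positivity)
  have hXh : (0 : ℝ) < (X : ℝ) ^ h := by positivity
  have hHX1 : H ≤ X := by
    have h2 : (X : ℝ) ^ h ≤ X := by
      calc (X : ℝ) ^ h ≤ (X : ℝ) ^ (1 : ℝ) := Real.rpow_le_rpow_of_exponent_le (by linarith) h1
        _ = X := Real.rpow_one _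
    have h3 : (H : ℝ) ≤ X := hHX.trans h2
    exact_mod_cast h3
  -- the bad integers
  set S : Finset ℕ := univ.biUnion (fun i : Fin k =>
    FBS (((2 * X : ℕ) : ℝ) ^ w) (α i) (β i) (y i) (z i) (2 * X)) with hS
  have hSc : (S.card : ℝ) ≤ ε * δ / 4 * X / L' := by
    have h2 : (S.card : ℝ) ≤ ∑ i : Fin k,
        ((FBS (((2 * X : ℕ) : ℝ) ^ w) (α i) (β i) (y i) (z i) (2 * X)).card : ℝ) := by
      exact_mod_cast card_biUnion_le
    have h3 : L' ≤ Real.log (2 * X : ℕ) := by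
      apply Real.log_le_log hX0
      push_cast
      linarith
    have h4 : ∀ i : Fin k,
        ((FBS (((2 * X : ℕ) : ℝ) ^ w) (α i) (β i) (y i) (z i) (2 * X)).card : ℝ) ≤
        2 * C * X / L' ^ 2 * ((β i - α i) * (1 + Real.log (z i / y i))) := by
      intro i
      obtain ⟨b1, b2, b3, b4, b5⟩ := hbox i
      have b6 : ((2 * X : ℕ) : ℝ) ^ (-(w / 80)) ≤ β i - α i := by
        refine le_trans ?_ b3
        apply Real.rpow_le_rpow_of_nonpos hX0 _ (by linarith)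
        push_cast
        linarith
      have b7 : 0 < β i - α i := lt_of_lt_of_le (Real.rpow_pos_of_pos hX0 _) b3
      refine (g2 (α i) (β i) (y i) (z i) b1 b2 b6 b4 b5).trans ?_
      have hzy : 1 ≤ z i / y i := by
        rw [one_le_div b4]
        exact b5
      have h5 := Real.log_nonneg hzy
      have h6 : L' ^ 2 ≤ (Real.log (2 * X : ℕ)) ^ 2 := pow_le_pow_left₀ hL0.le h3 2
      calc C * (β i - α i) * (1 + Real.log (z i / y i)) * (2 * X : ℕ) / (Real.log (2 * X : ℕ)) ^ 2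
          ≤ C * (β i - α i) * (1 + Real.log (z i / y i)) * (2 * X : ℕ) / L' ^ 2 := by
            apply div_le_div_of_nonneg_left _ (by positivity) h6
            positivity
        _ = 2 * C * X / L' ^ 2 * ((β i - α i) * (1 + Real.log (z i / y i))) := by
            push_cast
            ring
    calc (S.card : ℝ) ≤ ∑ i : Fin k, 2 * C * X / L' ^ 2 * ((β i - α i) * (1 + Real.log (z i / y i))) :=
          h2.trans (sum_le_sum fun i _ => h4 i)
      _ = 2 * C * X / L' ^ 2 * ∑ i : Fin k, (β i - α i) * (1 + Real.log (z i / y i)) := by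
          rw [mul_sum]
      _ ≤ 2 * C * X / L' ^ 2 * (δ / (8 * C) * ε * L') := by gcongr
      _ = ε * δ / 4 * X / L' := by
          field_simp
          ring
  -- good or bad
  have hcount : ∀ N : ℕ, 1 ≤ N → N ≤ X → almostPrimes 1 m ((X : ℝ) ^ z0) N H ≤
      ((Ioc N (N + H)).filter (GoodU m w k α β y z X)).card +
        ((Ioc N (N + H)).filter (fun n => n ∈ S)).card := by
    intro N hN1 hNX
    unfold almostPrimes
    refine (card_le_card ?_).trans (card_union_le _ _)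
    intro n hn
    rw [mem_filter] at hn
    obtain ⟨hn, hlen, hpr⟩ := hn
    rw [mem_union, mem_filter, mem_filter]
    have hn' := mem_Ioc.1 hn
    have hnat : ((n : ℤ) ^ 2 + 1).natAbs = n ^ 2 + 1 := by
      have h2 : ((n : ℤ) ^ 2 + 1) = ((n ^ 2 + 1 : ℕ) : ℤ) := by push_cast; ring
      rw [h2, Int.natAbs_natCast]
    rw [hnat] at hlen
    have hr : Rough ((X : ℝ) ^ z0) n := by
      intro p hp hpa
      apply hpr p hp
      exact_mod_cast hpa
    have hr2 : Rough (((2 * X : ℕ) : ℝ) ^ w) n := fun p hp hpa => g5.trans (hr p hp hpa)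
    have hr1 : Rough ((X : ℝ) ^ w) n := by
      intro p hp hpa
      refine le_trans ?_ (hr2 p hp hpa)
      push_cast
      gcongr
      linarith
    by_cases hg : ∀ i, ¬ HasFactor n (α i) (β i) (y i) (z i)
    · left
      exact ⟨hn, hlen, hr1, hg⟩
    · right
      push Not at hg
      obtain ⟨i, hi⟩ := hg
      refine ⟨hn, ?_⟩
      rw [hS, mem_biUnion]
      refine ⟨i, mem_univ _, ?_⟩
      rw [FBS, mem_filter, mem_Icc]
      exact ⟨⟨by omega, by omega⟩, hr2, hi⟩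
  -- the exceptions
  set E1 : Finset ℕ := (Icc 1 X).filter (fun N : ℕ =>
    (almostPrimes 1 m ((X : ℝ) ^ z0) N H : ℝ) < δ * (X : ℝ) ^ h / L') with hE1
  set E2 : Finset ℕ := (Icc 1 X).filter (fun N : ℕ =>
    δ / 2 * (X : ℝ) ^ h / L' ≤ (((Ioc N (N + H)).filter (fun n => n ∈ S)).card : ℝ)) with hE2
  have hE2c : (E2.card : ℝ) ≤ ε / 2 * X := by
    have h2 : (E2.card : ℝ) * (δ / 2 * (X : ℝ) ^ h / L') ≤ H * S.card := by
      calc (E2.card : ℝ) * (δ / 2 * (X : ℝ) ^ h / L') = ∑ N ∈ E2, (δ / 2 * (X : ℝ) ^ h / L') := by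
            rw [sum_const, nsmul_eq_mul]
        _ ≤ ∑ N ∈ E2, (((Ioc N (N + H)).filter (fun n => n ∈ S)).card : ℝ) := by
            apply sum_le_sum
            intro N hN
            rw [hE2, mem_filter] at hN
            exact hN.2
        _ ≤ ∑ N ∈ Icc 1 X, (((Ioc N (N + H)).filter (fun n => n ∈ S)).card : ℝ) := by
            apply sum_le_sum_of_subset_of_nonneg (filter_subset _ _)
            intro N _ _
            positivity
        _ ≤ H * S.card := by exact_mod_cast double_count S X H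
    have h3 : (H : ℝ) * S.card ≤ (X : ℝ) ^ h * (ε * δ / 4 * X / L') := by gcongr
    have h4 : (E2.card : ℝ) * (δ / 2 * (X : ℝ) ^ h / L') ≤
        (ε / 2 * X) * (δ / 2 * (X : ℝ) ^ h / L') := by
      refine (h2.trans h3).trans (le_of_eq ?_)
      ring
    exact le_of_mul_le_mul_right h4 (by positivity)
  have hsub : (Icc 1 X).filter (fun N : ℕ =>
      (((Ioc N (N + H)).filter (GoodU m w k α β y z X)).card : ℝ) < δ / 2 * (X : ℝ) ^ h / L') ⊆
      E1 ∪ E2 := by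
    intro N hN
    rw [mem_filter] at hN
    obtain ⟨hN, hNg⟩ := hN
    have hN' := mem_Icc.1 hN
    rw [mem_union, hE1, hE2, mem_filter, mem_filter]
    by_contra hc
    push Not at hc
    have h2 := hc.1 hN
    have h3 := hc.2 hN
    have h4 := hcount N hN'.1 hN'.2
    have h5 : (almostPrimes 1 m ((X : ℝ) ^ z0) N H : ℝ) ≤
      (((Ioc N (N + H)).filter (GoodU m w k α β y z X)).card : ℝ) +
        (((Ioc N (N + H)).filter (fun n => n ∈ S)).card : ℝ) := by exact_mod_cast h4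
    have h6 : δ * (X : ℝ) ^ h / L' = δ / 2 * (X : ℝ) ^ h / L' + δ / 2 * (X : ℝ) ^ h / L' := by ring
    linarith
  have hfin : (((Icc 1 X).filter (fun N : ℕ =>
      (((Ioc N (N + H)).filter (GoodU m w k α β y z X)).card : ℝ) < δ / 2 * (X : ℝ) ^ h / L')).card : ℝ) ≤
      (E1.card : ℝ) + E2.card := by
    exact_mod_cast (card_le_card hsub).trans (card_union_le _ _)
  have hE1c : (E1.card : ℝ) ≤ ε / 2 * X := g1.trans g4
  linarith

theorem nsq1 : ¬ IsSquare (-(1 : ℤ)) := by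
  rintro ⟨r, hr⟩
  nlinarith [mul_self_nonneg r]

theorem shortU (m : ℕ) (h ζ : ℝ) (hh : 0 < h) (h1 : h ≤ 1) (hζ : 0 < ζ)
    (hpar : (m = 5 ∧ ζ < (1 + h) / 5) ∨ (m = 4 ∧ 19 / 250 < h ∧ ζ < (1 + h) / 8) ∨
      (m = 3 ∧ 9 / 20 < h ∧ ζ < (1 + h) / 8) ∨ (m = 3 ∧ 2 / 5 ≤ ζ ∧ ζ + 1 / 2 < h)) :
    ∃ δ c : ℝ, 0 < δ ∧ 0 < c ∧ ∀ ε : ℝ, 0 < ε → ∀ᶠ X : ℕ in atTop,
      ∀ (k : ℕ) (α β y z : Fin k → ℝ),
        (∀ i, -1 ≤ α i ∧ β i ≤ 1 ∧ (X : ℝ) ^ (-(ζ / 80)) ≤ β i - α i ∧ 0 < y i ∧ y i ≤ z i) →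
        ∑ i, (β i - α i) * (1 + Real.log (z i / y i)) ≤ c * ε * Real.log X →
        (((Icc 1 X).filter (fun N : ℕ =>
          (((Ioc N (N + ⌊(X : ℝ) ^ h⌋₊)).filter (GoodU m ζ k α β y z X)).card : ℝ) <
            δ * (X : ℝ) ^ h / Real.log X)).card : ℝ) ≤ ε * X := by
  rcases hpar with ⟨rfl, hz⟩ | ⟨rfl, hh2, hz⟩ | ⟨rfl, hh2, hz⟩ | ⟨rfl, hz, hh2⟩
  · obtain ⟨τ, hτ1, hτ2⟩ : ∃ τ : ℝ, max (1 / 2) (5 / 2 * ζ) < τ ∧ τ < (1 + h) / 2 :=
      exists_between (max_lt (by linarith) (by linarith))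
    have hτ3 := (le_max_left (1 / 2 : ℝ) (5 / 2 * ζ)).trans_lt hτ1
    have hτ4 := (le_max_right (1 / 2 : ℝ) (5 / 2 * ζ)).trans_lt hτ1
    obtain ⟨δ, hδ, hP⟩ := Pool.Agent.Results.MP_7169d5_nt.ShortIntervalsFewExceptions.result 1
      nsq1 5 τ (2 / 5 * τ) (Or.inl ⟨rfl, hτ3.le, rfl⟩) (by linarith) h
      ((1 + h - 2 * τ) / 2) hh h1 (by linarith)
    exact short_genU 5 h ζ (2 / 5 * τ) _ δ h1 hζ (by linarith) (by linarith) (by linarith) hδ hP
  · obtain ⟨τ, hτ1, hτ2⟩ : ∃ τ : ℝ, max (269 / 500) (4 * ζ) < τ ∧ τ < (1 + h) / 2 :=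
      exists_between (max_lt (by linarith) (by linarith))
    have hτ3 := (le_max_left (269 / 500 : ℝ) (4 * ζ)).trans_lt hτ1
    have hτ4 := (le_max_right (269 / 500 : ℝ) (4 * ζ)).trans_lt hτ1
    obtain ⟨δ, hδ, hP⟩ := Pool.Agent.Results.MP_7169d5_nt.ShortIntervalsFewExceptions.result 1
      nsq1 4 τ (τ / 4) (Or.inr (Or.inl ⟨rfl, hτ3.le, rfl⟩)) (by linarith) h
      ((1 + h - 2 * τ) / 2) hh h1 (by linarith)
    exact short_genU 4 h ζ (τ / 4) _ δ h1 hζ (by linarith) (by linarith) (by linarith) hδ hP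
  · obtain ⟨τ, hτ1, hτ2⟩ : ∃ τ : ℝ, max (29 / 40) (4 * ζ) < τ ∧ τ < (1 + h) / 2 :=
      exists_between (max_lt (by linarith) (by linarith))
    have hτ3 := (le_max_left (29 / 40 : ℝ) (4 * ζ)).trans_lt hτ1
    have hτ4 := (le_max_right (29 / 40 : ℝ) (4 * ζ)).trans_lt hτ1
    obtain ⟨δ, hδ, hP⟩ := Pool.Agent.Results.MP_7169d5_nt.ShortIntervalsFewExceptions.result 1
      nsq1 3 τ (τ / 4) (Or.inr (Or.inr ⟨rfl, hτ3.le, rfl⟩)) (by linarith) h
      ((1 + h - 2 * τ) / 2) hh h1 (by linarith)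
    exact short_genU 3 h ζ (τ / 4) _ δ h1 hζ (by linarith) (by linarith) (by linarith) hδ hP
  · obtain ⟨ε, hε1, hε2⟩ : ∃ ε : ℝ, 1 - h < ε ∧ ε < 1 / 2 - ζ :=
      exists_between (by linarith)
    have hε0 : 0 < ε := by linarith
    have hε10 : ε ≤ 1 / 10 := by linarith
    have hd : 0 < 4 * ε - ε ^ 2 := by nlinarith
    have hυ : (0 : ℝ) < 1 / 2 + ε := by linarith
    obtain ⟨δ, hδ, X0, H⟩ := Pool.Agent.Y882.MG.finAll 1 nsq1 3 (1 - ε / 2) (1 / 2 - ε)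
      (1 / 2 + ε) ((1 / 2 + ε) / (4 * ε - ε ^ 2)) (2 + ε ^ 2) (by linarith) (by linarith)
      (by linarith) (by linarith) (by linarith) (by linarith) (by linarith) (by positivity)
      (Pool.Agent.H578.Sec.cond_half ε hε0 hε10) (by nlinarith) (by
        have h2 : 1 / ((1 / 2 + ε) / (4 * ε - ε ^ 2)) + (2 + ε ^ 2) / (1 / 2 + ε) = 4 := by
          field_simp
          ring
        rw [h2]
        norm_num) h ((ε - (1 - h)) / 2) (by linarith) h1 (by linarith)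
    exact short_genU 3 h ζ (1 / 2 - ε) _ δ h1 (by linarith) (by linarith) (by linarith) (by linarith) hδ
      (eventually_atTop.2 ⟨X0, fun X hX => H X hX⟩)

end Pool.Agent.H578.Sec
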